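import Pool.Agent.Helper7.SV.X3
import Pool.Agent.Helper7.BU.Burk

/-!
# SV-B: Burkholder's functional, all `p > 1` (layer cake, Helper7/BU/Burk.lean)

`p < 2`: `burk_lt`, `p = 2`: `burk_two`, `p > 2`: `burk_gt`; the hypotheses are `Sv` for `z ↦ t⁻¹ f z` and its conjugate
(`sv_scale`, `sv_cj`), given by `sv_all`.
-/

set_option autoImplicit false

noncomputable section

open scoped ComplexConjugate Topology
open MeasureTheory UnitAddTorus Filter

namespace Pool.Agent.Helper7.SV

open Pool.Agent.Helper7.BU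

theorem burk_all {p : ℝ} (hp : 1 < p) {f : ℂ → ℂ} (hf : ContDiff ℝ 1 f) (hs : HasCompactSupport f) :
    0 ≤ ∫ z, BF p (dz f z) (db f z) := by
  rcases lt_trichotomy p 2 with h | h | h
  · exact burk_lt hf hs hp h fun t ht => sv_scale hf ht (sv_all (cd_scale hf _) (cs_scale hs _))
  · subst h
    exact (burk_two hf hs).ge
  · exact burk_gt hf hs h fun t ht =>
      sv_cj hf ht (sv_all (cd_scale (cd_cj hf) _) (cs_scale (cs_cj hs) _))

end Pool.Agent.Helper7.SV
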