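import Pool.Agent.Helper7.SV.Defs

/-!
# SV-I: pointwise inequalities

All elementary; `LS z w = if ‖z‖+‖w‖ ≤ 1 then ‖z‖²-‖w‖² else 2‖z‖-1`.
-/

set_option autoImplicit false

noncomputable section

open scoped ComplexConjugate Topology
open MeasureTheory UnitAddTorus Filter

namespace Pool.Agent.Helper7.SV

open Pool.Agent.Helper7.BU

theorem LS_ge_one (z w : ℂ) : 2 * ‖z‖ - 1 ≤ LS z w := by
  unfold LS
  split_ifs with h
  · nlinarith [norm_nonneg z, norm_nonneg w]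
  · exact le_refl _

theorem LS_ge_two {z : ℂ} (w : ℂ) (hz : ‖z‖ ≤ 1) : ‖z‖ ^ 2 - ‖w‖ ^ 2 ≤ LS z w := by
  unfold LS
  split_ifs with h
  · exact le_refl _
  · push Not at h
    nlinarith [norm_nonneg z, norm_nonneg w]

theorem LS_abs_le (z w : ℂ) : |LS z w| ≤ 6 * (‖z‖ ^ 2 + ‖w‖ ^ 2) := by
  have hz := norm_nonneg z
  have hw := norm_nonneg w
  unfold LS
  split_ifs with h
  · rw [abs_le]
    constructor <;> nlinarith
  · push Not at h
    have h2 : 1 ≤ (‖z‖ + ‖w‖) ^ 2 := by nlinarith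
    have h3 : (‖z‖ + ‖w‖) ^ 2 ≤ 2 * (‖z‖ ^ 2 + ‖w‖ ^ 2) := by nlinarith [sq_nonneg (‖z‖ - ‖w‖)]
    rw [abs_le]
    constructor
    · nlinarith
    · nlinarith [sq_nonneg (‖z‖ - 1)]

theorem norm_sgn {W s : ℂ} (hW : W ≠ 0) (hs : s = W / ‖W‖) : ‖s‖ = 1 := by
  have : ‖W‖ ≠ 0 := norm_ne_zero_iff.2 hW
  rw [hs, norm_div, Complex.norm_real, norm_norm, div_self this]

theorem sgn_mul {W s : ℂ} (hW : W ≠ 0) (hs : s = W / ‖W‖) : W = ‖W‖ * s := by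
  have : (‖W‖ : ℂ) ≠ 0 := by exact_mod_cast norm_ne_zero_iff.2 hW
  rw [hs]; field_simp

theorem pointwise_off {a s W M : ℂ} {ε : ℝ} (hW : W ≠ 0) (hs : s = W / ‖W‖)
    (hM : M = a + s + ((ε / 2 : ℝ) : ℂ) * W) (b : ℂ) :
    -2 * (conj s * M).re + 1 + ε * ‖W‖ ≤ LS a b := by
  have h1 := LS_ge_one a b
  have hs1 := norm_sgn hW hs
  have h2 : conj s * s = 1 := by
    rw [← Complex.normSq_eq_conj_mul_self, Complex.normSq_eq_norm_sq, hs1]; simp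
  have h3 : conj s * M = conj s * a + ((1 + ε / 2 * ‖W‖ : ℝ) : ℂ) := by
    have hW2 := sgn_mul hW hs
    have : conj s * W = ‖W‖ := by
      calc conj s * W = conj s * (‖W‖ * s) := by rw [← hW2]
        _ = ‖W‖ * (conj s * s) := by ring
        _ = ‖W‖ := by rw [h2, mul_one]
    rw [hM, mul_add, mul_add, h2]
    calc conj s * a + 1 + conj s * (((ε / 2 : ℝ) : ℂ) * W)
        = conj s * a + 1 + ((ε / 2 : ℝ) : ℂ) * (conj s * W) := by ring
      _ = _ := by rw [this]; push_cast; ring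
  have h4 : -‖a‖ ≤ (conj s * a).re := by
    have h5 : |(conj s * a).re| ≤ ‖conj s * a‖ := Complex.abs_re_le_norm _
    rw [norm_mul, RCLike.norm_conj, hs1, one_mul] at h5
    exact (abs_le.1 h5).1
  rw [h3, Complex.add_re, Complex.ofReal_re]
  have h5 : (conj s * a).re ≤ ‖a‖ := by
    have h5 : |(conj s * a).re| ≤ ‖conj s * a‖ := Complex.abs_re_le_norm _
    rw [norm_mul, RCLike.norm_conj, hs1, one_mul] at h5
    exact (abs_le.1 h5).2
  linarith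

theorem norm_A {s W : ℂ} {ε : ℝ} (hW : W ≠ 0) (hs : s = W / ‖W‖) :
    ‖-s - ((ε / 2 : ℝ) : ℂ) * W‖ ^ 2 = 1 + ε * ‖W‖ + ε ^ 2 / 4 * ‖W‖ ^ 2 := by
  have hW2 := sgn_mul hW hs
  have hs1 := norm_sgn hW hs
  have h1 : -s - ((ε / 2 : ℝ) : ℂ) * W = -(((1 + ε / 2 * ‖W‖ : ℝ) : ℂ) * s) := by
    calc -s - ((ε / 2 : ℝ) : ℂ) * W = -s - ((ε / 2 : ℝ) : ℂ) * (‖W‖ * s) := by rw [← hW2]
      _ = _ := by push_cast; ring
  rw [h1, norm_neg, norm_mul, hs1, mul_one, Complex.norm_real, Real.norm_eq_abs, sq_abs]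
  ring

end Pool.Agent.Helper7.SV
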