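import Pool.Agent.Helper7.SV.L1

/-!
# SV-L2: locality of `½Δ` and `2∂̄²`
-/

set_option autoImplicit false

noncomputable section

open scoped ComplexConjugate Topology
open MeasureTheory UnitAddTorus Filter

namespace Pool.Agent.Helper7.SV

theorem dt_sq_le {n : Ix} (hn : n = ![1, 0] ∨ n = ![0, 1] ∨ n = ![1, 1]) (k : Ix) :
    dt n k ^ 2 ≤ 2 * qq k := by
  unfold dt qq
  rcases hn with rfl | rfl | rfl
  · simp; nlinarith [sq_nonneg (k 0 : ℝ), sq_nonneg (k 1 : ℝ)]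
  · simp; nlinarith [sq_nonneg (k 0 : ℝ), sq_nonneg (k 1 : ℝ)]
  · simp; nlinarith [sq_nonneg ((k 0 : ℝ) - (k 1 : ℝ))]

theorem exists_V {n : Ix} (hn : n = ![1, 0] ∨ n = ![0, 1] ∨ n = ![1, 1]) (W M : H)
    (hM : ∀ k, fc M k = ((-(2 * Real.pi ^ 2 * qq k) : ℝ) : ℂ) * fc W k) :
    ∃ V : H, ∀ k, fc V k = ((-(4 * Real.pi ^ 2 * dt n k ^ 2) : ℝ) : ℂ) * fc W k := by
  refine exists_fc _ M 4 fun k => ?_
  have hq : 0 ≤ qq k := by unfold qq; positivity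
  rw [hM, norm_mul, norm_mul, Complex.norm_real, Complex.norm_real, Real.norm_eq_abs,
    Real.norm_eq_abs, abs_neg, abs_neg, abs_of_nonneg (by positivity), abs_of_nonneg (by positivity),
    ← mul_assoc]
  refine mul_le_mul_of_nonneg_right ?_ (norm_nonneg _)
  have := dt_sq_le hn k
  have hp := sq_nonneg Real.pi
  nlinarith

theorem loc_M (W M : H) (hM : ∀ k, fc M k = ((-(2 * Real.pi ^ 2 * qq k) : ℝ) : ℂ) * fc W k) :
    ∀ᵐ x, W x = 0 → M x = 0 := by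
  obtain ⟨V1, h1⟩ := exists_V (n := ![1, 0]) (by simp) W M hM
  obtain ⟨V2, h2⟩ := exists_V (n := ![0, 1]) (by simp) W M hM
  have e : M = (1 / 2 : ℂ) • V1 + (1 / 2 : ℂ) • V2 := by
    apply fc_ext
    intro k
    rw [fc_add, fc_smul, fc_smul, h1, h2, hM]
    unfold dt qq
    simp
    ring
  filter_upwards [loc_dir _ W V1 h1, loc_dir _ W V2 h2,
    Lp.coeFn_add ((1 / 2 : ℂ) • V1) ((1 / 2 : ℂ) • V2), Lp.coeFn_smul (1 / 2 : ℂ) V1,
    Lp.coeFn_smul (1 / 2 : ℂ) V2] with x a1 a2 a3 a4 a5 hx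
  rw [e, a3, Pi.add_apply, a4, a5, Pi.smul_apply, Pi.smul_apply, a1 hx, a2 hx]
  simp

theorem loc_N (W M N : H) (hM : ∀ k, fc M k = ((-(2 * Real.pi ^ 2 * qq k) : ℝ) : ℂ) * fc W k)
    (hN : ∀ k, fc N k = -(2 * (Real.pi : ℂ) ^ 2 * kap k ^ 2) * fc W k) :
    ∀ᵐ x, W x = 0 → N x = 0 := by
  obtain ⟨V1, h1⟩ := exists_V (n := ![1, 0]) (by simp) W M hM
  obtain ⟨V2, h2⟩ := exists_V (n := ![0, 1]) (by simp) W M hM
  obtain ⟨V3, h3⟩ := exists_V (n := ![1, 1]) (by simp) W M hM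
  have e : N = ((1 - Complex.I) / 2 : ℂ) • V1 + ((-1 - Complex.I) / 2 : ℂ) • V2 +
      (Complex.I / 2 : ℂ) • V3 := by
    apply fc_ext
    intro k
    rw [fc_add, fc_add, fc_smul, fc_smul, fc_smul, h1, h2, h3, hN]
    unfold dt kap
    have hI : Complex.I ^ 2 = -1 := Complex.I_sq
    simp
    linear_combination (-2 * (Real.pi : ℂ) ^ 2 * (k 1 : ℂ) ^ 2 * fc W k) * hI
  filter_upwards [loc_dir _ W V1 h1, loc_dir _ W V2 h2, loc_dir _ W V3 h3,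
    Lp.coeFn_add (((1 - Complex.I) / 2 : ℂ) • V1 + ((-1 - Complex.I) / 2 : ℂ) • V2)
      ((Complex.I / 2 : ℂ) • V3),
    Lp.coeFn_add (((1 - Complex.I) / 2 : ℂ) • V1) (((-1 - Complex.I) / 2 : ℂ) • V2),
    Lp.coeFn_smul ((1 - Complex.I) / 2 : ℂ) V1, Lp.coeFn_smul ((-1 - Complex.I) / 2 : ℂ) V2,
    Lp.coeFn_smul (Complex.I / 2 : ℂ) V3] with x a1 a2 a3 a4 a5 a6 a7 a8 hx
  rw [e, a4, Pi.add_apply, a5, Pi.add_apply, a6, a7, a8, Pi.smul_apply, Pi.smul_apply,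
    Pi.smul_apply, a1 hx, a2 hx, a3 hx]
  simp

end Pool.Agent.Helper7.SV
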