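import Pool.Agent.Helper7.SV.S
import Pool.Agent.Helper7.SV.L2
import Pool.Agent.Helper7.SV.I

/-!
# SV-C: the inequality on the torus

`main_eps`: `N` with `fc N k = -2π² (kap k)² fc W k` exists by `exists_fc` (comparison with `M`, `‖kap k‖² = qq k`).
`A = a - M`, `B = b - N`.  `fc A 0 = 0 = fc B 0`, `conj (kap k) fc B k = kap k fc A k`, so `‖fc A k‖ = ‖fc B k‖`, so
`‖A‖ = ‖B‖` (`hasSum_fc_sq`), i.e. `∫ ‖A x‖² = ∫ ‖B x‖²`.  A.e. (`Lp.coeFn_add` ...): `A x = a x - M x`, `B x = b x - N x`,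
`M x = a x + s x + (ε/2) W x`.
A.e. on `{W = 0}`: `M x = 0 = N x`, `a x = -s x`, `‖a x‖ ≤ 1`, so `LS (a x) (b x) ≥ ‖A x‖² - ‖B x‖²`; also `0 = -2 Re (conj (s x) (M x))`.
A.e. on `{W ≠ 0}`: `LS (a x) (b x) ≥ -2 Re (conj s M) + 1 + ε‖W‖ = -2 Re(conj s M) + ‖A x‖² - (ε²/4)‖W x‖² ≥ -2 Re (conj s M) + ‖A‖² - ‖B‖² - (ε²/4)‖W‖²`.
So everywhere `LS (a x) (b x) ≥ -2 Re (conj (s x) (M x)) + ‖A x‖² - ‖B x‖² - (ε²/4)‖W x‖²`; integrate, `∫ Re (conj s M) = Re ⟪s, M⟫ ≤ 0`.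
`core`: `ε → 0` with `W_bound`.
-/

set_option autoImplicit false

noncomputable section

open scoped ComplexConjugate Topology
open MeasureTheory UnitAddTorus Filter

namespace Pool.Agent.Helper7.SV

open Pool.Agent.Helper7.BU

private theorem sq_int (v : H) : Integrable (fun x => ‖v x‖ ^ 2) := by
  have h := (Lp.memLp v).integrable_norm_pow (by norm_num : (2 : ℕ) ≠ 0)
  exact h

theorem LS_integrable (a b : H) : Integrable (fun x => LS (a x) (b x)) := by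
  have h1 : Integrable (fun x => 6 * (‖a x‖ ^ 2 + ‖b x‖ ^ 2)) := ((sq_int a).add (sq_int b)).const_mul 6
  refine h1.mono' ?_ ?_
  · exact LS_continuous.comp_aestronglyMeasurable
      ((Lp.aestronglyMeasurable a).prodMk (Lp.aestronglyMeasurable b))
  · filter_upwards with x
    rw [Real.norm_eq_abs]
    exact LS_abs_le _ _

private theorem kap_sq (k : Ix) : ‖kap k‖ ^ 2 = qq k := by
  unfold kap qq
  rw [← Complex.normSq_eq_norm_sq, Complex.normSq_apply]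
  simp
  ring

private theorem kap_zero_iff {k : Ix} (h : kap k = 0) : k = 0 := by
  have h1 : qq k = 0 := by rw [← kap_sq, h]; simp
  unfold qq at h1
  have h2 : (k 0 : ℝ) ^ 2 = 0 := by nlinarith [sq_nonneg (k 0 : ℝ), sq_nonneg (k 1 : ℝ)]
  have h3 : (k 1 : ℝ) ^ 2 = 0 := by nlinarith [sq_nonneg (k 0 : ℝ), sq_nonneg (k 1 : ℝ)]
  have h4 : k 0 = 0 := by exact_mod_cast pow_eq_zero_iff (two_ne_zero) |>.1 h2
  have h5 : k 1 = 0 := by exact_mod_cast pow_eq_zero_iff (two_ne_zero) |>.1 h3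
  funext i
  fin_cases i
  · exact h4
  · exact h5

private theorem int_sq (v : H) : ∫ x, ‖v x‖ ^ 2 = ‖v‖ ^ 2 := by
  have h1 : (inner ℂ v v : ℂ) = ((‖v‖ ^ 2 : ℝ) : ℂ) := by
    rw [inner_self_eq_norm_sq_to_K]
    simp
  have h2 : (inner ℂ v v : ℂ) = ((∫ x, ‖v x‖ ^ 2 : ℝ) : ℂ) := by
    rw [L2.inner_def, ← integral_complex_ofReal]
    refine integral_congr_ae (Eventually.of_forall fun x => ?_)
    simp only
    rw [inner_self_eq_norm_sq_to_K]
    simp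
  have h3 := h2.symm.trans h1
  exact_mod_cast h3

private theorem int_re (s M : H) : Integrable (fun x => (conj (s x) * M x).re) ∧
    ∫ x, (conj (s x) * M x).re = (inner ℂ s M).re := by
  have h0 : Integrable (fun x => (inner ℂ (s x) (M x) : ℂ)) := L2.integrable_inner s M
  have h1 : (fun x => (inner ℂ (s x) (M x) : ℂ)) = fun x => conj (s x) * M x := by
    funext x
    rw [RCLike.inner_apply]
    ring
  rw [h1] at h0
  refine ⟨h0.re, ?_⟩
  rw [L2.inner_def, h1]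
  exact integral_re h0

theorem main_eps {a b : H} (ha : fc a 0 = 0) (hb : fc b 0 = 0)
    (hab : ∀ k, conj (kap k) * fc b k = kap k * fc a k) {ε : ℝ} (hε : 0 < ε) {s W M : H}
    (hs : s ∈ KK) (hv : ∀ s' ∈ KK, (inner ℂ W (s' - s)).re ≤ 0)
    (hM1 : M = a + s + ((ε / 2 : ℝ) : ℂ) • W)
    (hM : ∀ k, fc M k = ((-(2 * Real.pi ^ 2 * qq k) : ℝ) : ℂ) * fc W k) :
    -(ε ^ 2 / 4 * ‖W‖ ^ 2) ≤ ∫ x, LS (a x) (b x) := by
  obtain ⟨N, hN⟩ := exists_fc (fun k => -(2 * (Real.pi : ℂ) ^ 2 * kap k ^ 2) * fc W k) M 1 (fun k => by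
    have hq : 0 ≤ qq k := by unfold qq; positivity
    have h1 : ‖(((-(2 * Real.pi ^ 2 * qq k) : ℝ) : ℂ))‖ = 2 * Real.pi ^ 2 * qq k := by
      rw [Complex.norm_real, norm_neg, Real.norm_of_nonneg (by positivity)]
    have h2 : ‖-(2 * (Real.pi : ℂ) ^ 2 * kap k ^ 2)‖ = 2 * Real.pi ^ 2 * qq k := by
      rw [norm_neg, norm_mul, norm_mul, norm_pow, norm_pow, kap_sq, Complex.norm_real, Real.norm_of_nonneg Real.pi_pos.le]
      simp
    rw [hM, one_mul, norm_mul, norm_mul, h1, h2])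
  have hq0 : qq 0 = 0 := by simp [qq]
  have hk0 : kap 0 = 0 := by simp [kap]
  have hAB : ∀ k, ‖fc (a - M) k‖ = ‖fc (b - N) k‖ := by
    intro k
    by_cases hk : kap k = 0
    · have hk' := kap_zero_iff hk
      subst hk'
      rw [fc_sub, fc_sub, ha, hb, hM, hN, hq0, hk0]
      simp
    · have h1 : conj (kap k) * fc (b - N) k = kap k * fc (a - M) k := by
        rw [fc_sub, fc_sub, mul_sub, mul_sub, hab, hM, hN]
        have h2 : conj (kap k) * kap k = ((qq k : ℝ) : ℂ) := by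
          rw [← kap_sq, ← Complex.normSq_eq_norm_sq, Complex.normSq_eq_conj_mul_self]
        have h3 : conj (kap k) * (-(2 * (Real.pi : ℂ) ^ 2 * kap k ^ 2) * fc W k) =
            -(2 * (Real.pi : ℂ) ^ 2 * (conj (kap k) * kap k)) * (kap k * fc W k) := by ring
        rw [h3, h2]
        push_cast
        ring
      have h4 := congrArg norm h1
      rw [norm_mul, norm_mul, RCLike.norm_conj] at h4
      have h5 : ‖kap k‖ ≠ 0 := norm_ne_zero_iff.2 hk
      exact (mul_left_cancel₀ h5 h4).symm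
  have hnorm : ‖a - M‖ ^ 2 = ‖b - N‖ ^ 2 := by
    rw [← (hasSum_fc_sq (a - M)).tsum_eq, ← (hasSum_fc_sq (b - N)).tsum_eq]
    exact tsum_congr fun k => by rw [hAB k]
  have hMW := loc_M W M hM
  have hNW := loc_N W M N hM hN
  have hsg := KK_sign hs hv
  have hA := Lp.coeFn_sub a M
  have hB := Lp.coeFn_sub b N
  have hMe : ∀ᵐ x, M x = a x + s x + ((ε / 2 : ℝ) : ℂ) * W x := by
    have h1 := Lp.coeFn_add (a + s) (((ε / 2 : ℝ) : ℂ) • W)
    have h2 := Lp.coeFn_add a s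
    have h3 := Lp.coeFn_smul (((ε / 2 : ℝ) : ℂ)) W
    rw [hM1]
    filter_upwards [h1, h2, h3] with x h4 h5 h6
    rw [h4, Pi.add_apply, h5, h6, Pi.add_apply, Pi.smul_apply, smul_eq_mul]
  have key : ∀ᵐ x, -2 * (conj (s x) * M x).re + ‖(a - M) x‖ ^ 2 - ‖(b - N) x‖ ^ 2 - ε ^ 2 / 4 * ‖W x‖ ^ 2 ≤ LS (a x) (b x) := by
    have hs' : ∀ᵐ x, ‖s x‖ ≤ 1 := hs
    filter_upwards [hMW, hNW, hsg, hA, hB, hMe, hs'] with x h1 h2 h3 h4 h5 h6 h7
    rw [h4, h5, Pi.sub_apply, Pi.sub_apply]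
    by_cases hW : W x = 0
    · have e1 := h1 hW
      have e2 := h2 hW
      rw [e1, e2, hW]
      rw [e1, hW] at h6
      have e3 : a x = -s x := by
        have : a x + s x = 0 := by
          rw [mul_zero, add_zero] at h6
          exact h6.symm
        exact eq_neg_of_add_eq_zero_left this
      have h8 : ‖a x‖ ≤ 1 := by rw [e3, norm_neg]; exact h7
      have h9 := LS_ge_two (b x) h8
      simp only [mul_zero, Complex.zero_re, sub_zero, norm_zero]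
      norm_num
      linarith
    · have e3 := h3 hW
      have h8 := pointwise_off hW e3 h6 (b x)
      have h9 : a x - M x = -s x - ((ε / 2 : ℝ) : ℂ) * W x := by
        rw [h6]
        ring
      rw [h9, norm_A hW e3]
      have h10 : 0 ≤ ‖b x - N x‖ ^ 2 := by positivity
      linarith
  obtain ⟨hi1, hi2⟩ := int_re s M
  have hfl := flux hs hv hM
  have hI1 : Integrable (fun x => -2 * (conj (s x) * M x).re) := hi1.const_mul (-2)
  have hI2 : Integrable (fun x => -2 * (conj (s x) * M x).re + ‖(a - M) x‖ ^ 2) := hI1.add (sq_int _)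
  have hI3 : Integrable (fun x => -2 * (conj (s x) * M x).re + ‖(a - M) x‖ ^ 2 - ‖(b - N) x‖ ^ 2) := hI2.sub (sq_int _)
  have hI4 : Integrable (fun x => ε ^ 2 / 4 * ‖W x‖ ^ 2) := (sq_int W).const_mul _
  have hint := integral_mono_ae (hI3.sub hI4) (LS_integrable a b) key
  have e5 : ∫ x, (-2 * (conj (s x) * M x).re + ‖(a - M) x‖ ^ 2 - ‖(b - N) x‖ ^ 2 - ε ^ 2 / 4 * ‖W x‖ ^ 2) =
      -2 * (inner ℂ s M).re + ‖a - M‖ ^ 2 - ‖b - N‖ ^ 2 - ε ^ 2 / 4 * ‖W‖ ^ 2 := by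
    rw [integral_sub hI3 hI4, integral_sub hI2 (sq_int _), integral_add hI1 (sq_int _), integral_const_mul, integral_const_mul,
      hi2, int_sq, int_sq, int_sq]
  have e6 : ∫ x, (-2 * (conj (s x) * M x).re + ‖(a - M) x‖ ^ 2 - ‖(b - N) x‖ ^ 2 - ε ^ 2 / 4 * ‖W x‖ ^ 2) ≤ ∫ x, LS (a x) (b x) := hint
  rw [e5] at e6
  linarith

/-- The Burkholder–Šverák inequality on the torus. -/
theorem core {a b : H} (ha : fc a 0 = 0) (hb : fc b 0 = 0)
    (hab : ∀ k, conj (kap k) * fc b k = kap k * fc a k) :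
    0 ≤ ∫ x, LS (a x) (b x) := by
  set c : ℝ := (‖a‖ + 1) ^ 2 / 4
  have h1 : ∀ ε : ℝ, 0 < ε → ε ≤ 1 → -(ε * c) ≤ ∫ x, LS (a x) (b x) := by
    intro ε hε hε1
    obtain ⟨s, W, M, hs, hv, hM1, hM⟩ := exists_sol a hε
    have h2 := main_eps ha hb hab hε hs hv hM1 hM
    have h3 := W_bound ha hε hε1 hs hv hM1 hM
    have : ε * c = ε * (‖a‖ + 1) ^ 2 / 4 := by simp only [c]; ring
    rw [this]
    linarith
  have h2 : Tendsto (fun ε : ℝ => -(ε * c)) (𝓝[>] 0) (𝓝 0) := by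
    have : Tendsto (fun ε : ℝ => -(ε * c)) (𝓝 0) (𝓝 (-(0 * c))) := by
      exact ((continuous_id.mul continuous_const).neg).tendsto 0
    simp only [zero_mul, neg_zero] at this
    exact this.mono_left nhdsWithin_le_nhds
  refine le_of_tendsto h2 ?_
  have : ∀ᶠ ε : ℝ in 𝓝[>] 0, ε ∈ Set.Ioc (0 : ℝ) 1 := Ioc_mem_nhdsGT one_pos
  filter_upwards [this] with ε hε
  exact h1 ε hε.1 hε.2

end Pool.Agent.Helper7.SV
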