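import Pool.Agent.Helper7.SV.T

/-!
# SV-D: second difference quotients converge in `L²`

`fc (sd n h W) k = h⁻² (2 cos (2π h n·k) - 2) fc W k` by `fc_tr`, `mFourier_pt`.  Since `2 - 2 cos x = 4 sin²(x/2) ≤ x²`,
the modulus of the factor is at most `4π²(n·k)²` and it tends to `-4π²(n·k)²` as `h → 0`
(e.g. `(1 - cos x)/x² → 1/2`, or squeeze with `Real.one_sub_sq_div_two_le_cos` and `Real.cos_le_one_sub_mul_cos_sq`...,
or `sin x / x → 1` from `Real.hasDerivAt_sin`).  Use `tendsto_fc` with `g k = ‖fc V k‖`.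
-/

set_option autoImplicit false

noncomputable section

open scoped ComplexConjugate Topology
open MeasureTheory UnitAddTorus Filter

namespace Pool.Agent.Helper7.SV

theorem fc_sd (n : Ix) (h : ℝ) (W : H) (k : Ix) :
    fc (sd n h W) k =
      (((h ^ 2)⁻¹ * (2 * Real.cos (2 * Real.pi * (h * dt n k)) - 2) : ℝ) : ℂ) * fc W k := by
  unfold sd
  rw [fc_smul, fc_sub, fc_add, fc_smul, fc_tr, fc_tr, mFourier_pt, mFourier_pt]
  have h1 : Complex.exp (((2 * Real.pi * (h * dt n k) : ℝ) : ℂ) * Complex.I) +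
      Complex.exp (((2 * Real.pi * (-h * dt n k) : ℝ) : ℂ) * Complex.I) =
      2 * Complex.cos ((2 * Real.pi * (h * dt n k) : ℝ) : ℂ) := by
    rw [Complex.two_cos]
    congr 2
    push_cast
    ring
  have h2 : (((h ^ 2)⁻¹ : ℝ) : ℂ) *
      (Complex.exp (((2 * Real.pi * (h * dt n k) : ℝ) : ℂ) * Complex.I) * fc W k +
        Complex.exp (((2 * Real.pi * (-h * dt n k) : ℝ) : ℂ) * Complex.I) * fc W k -
        2 * fc W k) =
      (((h ^ 2)⁻¹ : ℝ) : ℂ) *
      ((Complex.exp (((2 * Real.pi * (h * dt n k) : ℝ) : ℂ) * Complex.I) +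
        Complex.exp (((2 * Real.pi * (-h * dt n k) : ℝ) : ℂ) * Complex.I)) - 2) * fc W k := by
    ring
  rw [h2, h1]
  push_cast
  ring

theorem cos_factor (y : ℝ) : 2 * Real.cos (2 * y) - 2 = -(4 * Real.sin y ^ 2) := by
  have := Real.cos_two_mul y
  have h2 := Real.sin_sq_add_cos_sq y
  rw [this]
  linarith

theorem factor_bound (x h : ℝ) :
    |(h ^ 2)⁻¹ * (2 * Real.cos (2 * Real.pi * (h * x)) - 2)| ≤ 4 * Real.pi ^ 2 * x ^ 2 := by
  have e : 2 * Real.pi * (h * x) = 2 * (Real.pi * h * x) := by ring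
  rw [e, cos_factor]
  by_cases hh : h = 0
  · subst hh; simp; positivity
  · have hpos : 0 < h ^ 2 := by positivity
    rw [abs_mul, abs_neg, abs_of_pos (inv_pos.2 hpos), abs_of_nonneg (by positivity)]
    have h1 : Real.sin (Real.pi * h * x) ^ 2 ≤ (Real.pi * h * x) ^ 2 := by
      rw [← sq_abs, ← sq_abs (Real.pi * h * x)]
      exact pow_le_pow_left₀ (abs_nonneg _) Real.abs_sin_le_abs 2
    calc (h ^ 2)⁻¹ * (4 * Real.sin (Real.pi * h * x) ^ 2)
        ≤ (h ^ 2)⁻¹ * (4 * (Real.pi * h * x) ^ 2) := by gcongr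
      _ = 4 * Real.pi ^ 2 * x ^ 2 := by field_simp

theorem factor_tendsto (x : ℝ) :
    Tendsto (fun h : ℝ => (h ^ 2)⁻¹ * (2 * Real.cos (2 * Real.pi * (h * x)) - 2)) (𝓝[≠] 0)
      (𝓝 (-(4 * Real.pi ^ 2 * x ^ 2))) := by
  have hd : HasDerivAt (fun h : ℝ => Real.sin (Real.pi * h * x)) (Real.pi * x) 0 := by
    have h1 : HasDerivAt (fun h : ℝ => Real.pi * h * x) (Real.pi * x) 0 := by
      simpa using ((hasDerivAt_id (0 : ℝ)).const_mul Real.pi).mul_const x
    have h2 := h1.sin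
    simpa using h2
  rw [hasDerivAt_iff_tendsto_slope] at hd
  have h3 := (hd.pow 2).const_mul (-4 : ℝ)
  have h4 : (-4 : ℝ) * (Real.pi * x) ^ 2 = -(4 * Real.pi ^ 2 * x ^ 2) := by ring
  rw [h4] at h3
  refine h3.congr' ?_
  filter_upwards [self_mem_nhdsWithin] with h hh
  have hh0 : h ≠ 0 := hh
  rw [slope_def_field]
  have e : 2 * Real.pi * (h * x) = 2 * (Real.pi * h * x) := by ring
  rw [e, cos_factor]
  simp only [sub_zero, mul_zero, zero_mul, Real.sin_zero]
  field_simp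

theorem sd_tendsto (n : Ix) (W V : H)
    (hV : ∀ k, fc V k = ((-(4 * Real.pi ^ 2 * dt n k ^ 2) : ℝ) : ℂ) * fc W k) :
    Tendsto (fun h : ℝ => sd n h W) (𝓝[≠] 0) (𝓝 V) := by
  refine tendsto_fc (fun h => sd n h W) V (fun k => ‖fc V k‖) (hasSum_fc_sq V).summable ?_ ?_
  · refine Filter.Eventually.of_forall fun h k => ?_
    rw [fc_sd, hV, norm_mul, norm_mul, Complex.norm_real, Complex.norm_real, Real.norm_eq_abs,
      Real.norm_eq_abs, abs_neg, abs_of_nonneg (show 0 ≤ 4 * Real.pi ^ 2 * dt n k ^ 2 by positivity)]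
    gcongr
    exact factor_bound (dt n k) h
  · intro k
    rw [hV]
    have h1 := factor_tendsto (dt n k)
    have h2 := (Complex.continuous_ofReal.tendsto _).comp h1
    refine (h2.mul_const (fc W k)).congr fun h => ?_
    rw [fc_sd]
    rfl

end Pool.Agent.Helper7.SV
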