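import Mathlib
import Pool.Agent.Helper7.BU.Plane

/-!
# Project SV: the Burkholder–Šverák inequality for all maps. Definitions.

Everything happens in `H = L²(T²; ℂ)`.  Proof in words: /team-store/h7_SV_proof.md, Version B.
-/

set_option autoImplicit false

noncomputable section

open scoped ComplexConjugate Topology
open MeasureTheory UnitAddTorus

namespace Pool.Agent.Helper7.SV

/-- As in Mathlib's `AddCircleMulti`, the measure on `ℝ / ℤ` is normalised (Haar probability measure).
These instances are scoped: they are active in the namespace `Pool.Agent.Helper7.SV`. -/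
scoped instance msCircle : MeasureSpace UnitAddCircle := ⟨AddCircle.haarAddCircle⟩

scoped instance haarCircle : Measure.IsAddHaarMeasure (volume : Measure UnitAddCircle) :=
  inferInstanceAs (Measure.IsAddHaarMeasure AddCircle.haarAddCircle)

scoped instance probCircle : IsProbabilityMeasure (volume : Measure UnitAddCircle) :=
  inferInstanceAs (IsProbabilityMeasure AddCircle.haarAddCircle)

/-- the two-dimensional torus -/
abbrev X : Type := UnitAddTorus (Fin 2)

/-- `L²` of the torus -/
abbrev H : Type := Lp ℂ 2 (volume : Measure X)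

/-- frequencies -/
abbrev Ix : Type := Fin 2 → ℤ

/-- Fourier coefficient of an element of `L²` -/
def fc (v : H) (k : Ix) : ℂ := mFourierCoeff v k

/-- `k₁ + i k₂` -/
def kap (k : Ix) : ℂ := (k 0 : ℂ) + (k 1 : ℂ) * Complex.I

/-- `|k|²` -/
def qq (k : Ix) : ℝ := (k 0 : ℝ) ^ 2 + (k 1 : ℝ) ^ 2

/-- symbol of `-½Δ + ε/2` -/
def lam (ε : ℝ) (k : Ix) : ℝ := 2 * Real.pi ^ 2 * qq k + ε / 2

/-- `n · k` -/
def dt (n k : Ix) : ℝ := (n 0 : ℝ) * k 0 + (n 1 : ℝ) * k 1

/-- the point `h n` of the torus -/
def pt (n : Ix) (h : ℝ) : X := fun i => ((h * n i : ℝ) : UnitAddCircle)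

/-- translation by `u` -/
def tr (u : X) : H →ₗᵢ[ℂ] H :=
  Lp.compMeasurePreservingₗᵢ ℂ (fun x => x + u) (measurePreserving_add_right volume u)

/-- second difference quotient in direction `n` -/
def sd (n : Ix) (h : ℝ) (W : H) : H :=
  (((h ^ 2)⁻¹ : ℝ) : ℂ) • (tr (pt n h) W + tr (pt n (-h)) W - (2 : ℂ) • W)

/-- the unit ball of `L^∞` -/
def KK : Set H := {s | ∀ᵐ x, ‖s x‖ ≤ 1}

end Pool.Agent.Helper7.SV
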