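import Pool.Agent.Helper7.SV.Defs

/-!
# SV-F: Fourier coefficients of elements of `H = L²(T²)` (all routine).

`fc v k = mFourierBasis.repr v k` by `mFourierBasis_repr`.  `mFourierBasis.repr : H ≃ₗᵢ ℓ²`.
-/

set_option autoImplicit false

noncomputable section

open scoped ComplexConjugate Topology
open MeasureTheory UnitAddTorus Filter

namespace Pool.Agent.Helper7.SV

theorem fc_eq_repr (v : H) (k : Ix) : fc v k = mFourierBasis.repr v k :=
  (mFourierBasis_repr v k).symm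

theorem fc_add (v w : H) (k : Ix) : fc (v + w) k = fc v k + fc w k := by
  simp only [fc_eq_repr, map_add, lp.coeFn_add, Pi.add_apply]

theorem fc_sub (v w : H) (k : Ix) : fc (v - w) k = fc v k - fc w k := by
  simp only [fc_eq_repr, map_sub, lp.coeFn_sub, Pi.sub_apply]

theorem fc_neg (v : H) (k : Ix) : fc (-v) k = -fc v k := by
  simp only [fc_eq_repr, map_neg, lp.coeFn_neg, Pi.neg_apply]

theorem fc_smul (c : ℂ) (v : H) (k : Ix) : fc (c • v) k = c * fc v k := by
  simp only [fc_eq_repr, map_smul, lp.coeFn_smul, Pi.smul_apply, smul_eq_mul]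

theorem fc_zero (k : Ix) : fc 0 k = 0 := by
  simp only [fc_eq_repr, map_zero, lp.coeFn_zero, Pi.zero_apply]

theorem fc_ext {v w : H} (h : ∀ k, fc v k = fc w k) : v = w := by
  apply mFourierBasis.repr.injective
  ext k
  rw [← fc_eq_repr, ← fc_eq_repr, h k]

theorem hasSum_fc (v w : H) : HasSum (fun k => conj (fc v k) * fc w k) (inner ℂ v w) := by
  have h := mFourierBasis.hasSum_inner_mul_inner v w
  refine h.congr_fun ?_
  intro k
  rw [fc_eq_repr, fc_eq_repr, HilbertBasis.repr_apply_apply, HilbertBasis.repr_apply_apply,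
    inner_conj_symm]

theorem hasSum_fc_sq (v : H) : HasSum (fun k => ‖fc v k‖ ^ 2) (‖v‖ ^ 2) := by
  have h := (hasSum_fc v v).mapL Complex.reCLM
  have e : Complex.reCLM (inner ℂ v v) = ‖v‖ ^ 2 := inner_self_eq_norm_sq (𝕜 := ℂ) v
  rw [e] at h
  refine h.congr_fun ?_
  intro k
  simp only [Complex.reCLM_apply]
  rw [← Complex.normSq_eq_norm_sq, ← Complex.normSq_eq_conj_mul_self, Complex.ofReal_re]

theorem norm_fc_le (v : H) (k : Ix) : ‖fc v k‖ ≤ ‖v‖ := by
  have h := (hasSum_fc_sq v)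
  have h1 : ‖fc v k‖ ^ 2 ≤ ‖v‖ ^ 2 :=
    le_hasSum h k (fun j _ => by positivity)
  exact le_of_sq_le_sq h1 (norm_nonneg _)

theorem exists_fc (c : Ix → ℂ) (v : H) (C : ℝ) (h : ∀ k, ‖c k‖ ≤ C * ‖fc v k‖) :
    ∃ w : H, ∀ k, fc w k = c k := by
  have hc : Memℓp c 2 := by
    apply memℓp_gen
    have h1 : Summable (fun k => C ^ 2 * ‖fc v k‖ ^ 2) := (hasSum_fc_sq v).summable.mul_left _
    refine Summable.of_nonneg_of_le (fun k => by positivity) (fun k => ?_) h1
    simp only [ENNReal.toReal_ofNat, Real.rpow_two]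
    rw [← mul_pow]
    exact pow_le_pow_left₀ (norm_nonneg _) (h k) 2
  refine ⟨mFourierBasis.repr.symm ⟨c, hc⟩, fun k => ?_⟩
  rw [fc_eq_repr, LinearIsometryEquiv.apply_symm_apply]

theorem tendsto_fc {l : Filter ℝ} [l.IsCountablyGenerated] (v : ℝ → H) (w : H) (g : Ix → ℝ)
    (hg : Summable (fun k => g k ^ 2)) (hb : ∀ᶠ i in l, ∀ k, ‖fc (v i) k‖ ≤ g k)
    (hl : ∀ k, Tendsto (fun i => fc (v i) k) l (𝓝 (fc w k))) : Tendsto v l (𝓝 w) := by
  rcases l.eq_or_neBot with hbot | hne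
  · subst hbot; exact tendsto_bot
  have hw : ∀ k, ‖fc w k‖ ≤ g k := fun k =>
    le_of_tendsto (hl k).norm (hb.mono fun i hi => hi k)
  have hn : ∀ i, ‖v i - w‖ ^ 2 = ∑' k, ‖fc (v i) k - fc w k‖ ^ 2 := by
    intro i
    rw [← (hasSum_fc_sq (v i - w)).tsum_eq]
    exact tsum_congr fun k => by rw [fc_sub]
  have h0 : Tendsto (fun i => ∑' k, ‖fc (v i) k - fc w k‖ ^ 2) l (𝓝 (∑' _ : Ix, (0 : ℝ))) := by
    refine tendsto_tsum_of_dominated_convergence (bound := fun k => 4 * g k ^ 2) (hg.mul_left 4) ?_ ?_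
    · intro k
      have := ((hl k).sub_const (fc w k)).norm.pow 2
      simpa using this
    · filter_upwards [hb] with i hi k
      rw [Real.norm_eq_abs, abs_of_nonneg (by positivity)]
      have h1 : ‖fc (v i) k - fc w k‖ ≤ 2 * g k := by
        calc _ ≤ ‖fc (v i) k‖ + ‖fc w k‖ := norm_sub_le _ _
          _ ≤ g k + g k := add_le_add (hi k) (hw k)
          _ = 2 * g k := by ring
      calc ‖fc (v i) k - fc w k‖ ^ 2 ≤ (2 * g k) ^ 2 := by gcongr
        _ = 4 * g k ^ 2 := by ring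
  rw [tsum_zero] at h0
  simp_rw [← hn] at h0
  rw [tendsto_iff_norm_sub_tendsto_zero]
  have h2 := h0.sqrt
  simp only [Real.sqrt_zero, Real.sqrt_sq (norm_nonneg _)] at h2
  exact h2

/-- the basis elements -/
theorem fc_basis (n k : Ix) : fc (mFourierLp 2 n) k = if k = n then 1 else 0 := by
  have h : (mFourierLp 2 n : H) = mFourierBasis n := by rw [coe_mFourierBasis]
  rw [fc_eq_repr, h, HilbertBasis.repr_self, lp.single_apply]
  by_cases hk : k = n
  · subst hk; simp
  · simp [hk]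

end Pool.Agent.Helper7.SV
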