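import Pool.Agent.Helper7.SV.T

/-!
# SV-K: the unit ball `KK` of `L^∞` inside `H`

* `KK_closed`: a convergent sequence in `L²` has an a.e. convergent subsequence.
* `KK_norm`: probability measure: `‖s‖² = ∫ ‖s x‖² ≤ 1`.
* `KK_sign`: take `s' = W/‖W‖` on `{W ≠ 0}`, `s' = s` on `{W = 0}` (measurable, bounded by 1, so in `H`).
  `Re ⟪W, s' - s⟫ = ∫_{W≠0} (‖W‖ - Re (conj W s)) ≤ 0`, integrand `≥ 0` since `‖s‖ ≤ 1`, so it vanishes a.e.:
  `Re (conj W s) = ‖W‖`, `‖s‖ ≤ 1` force `s = W/‖W‖`.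
-/

set_option autoImplicit false

noncomputable section

open scoped ComplexConjugate Topology
open MeasureTheory UnitAddTorus Filter

namespace Pool.Agent.Helper7.SV

theorem KK_convex : Convex ℝ KK := by
  intro s hs t ht a b ha hb hab
  unfold KK at *
  simp only [Set.mem_ofPred_eq] at *
  filter_upwards [hs, ht, Lp.coeFn_add (a • s) (b • t), Lp.coeFn_smul a s, Lp.coeFn_smul b t] with x h1 h2 h3 h4 h5
  rw [h3, Pi.add_apply, h4, h5, Pi.smul_apply, Pi.smul_apply]
  calc ‖a • s x + b • t x‖ ≤ ‖a • s x‖ + ‖b • t x‖ := norm_add_le _ _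
    _ = a * ‖s x‖ + b * ‖t x‖ := by
        rw [norm_smul, norm_smul, Real.norm_of_nonneg ha, Real.norm_of_nonneg hb]
    _ ≤ a * 1 + b * 1 := by gcongr
    _ = 1 := by rw [mul_one, mul_one, hab]

theorem KK_closed : IsClosed KK := by
  apply IsSeqClosed.isClosed
  intro u v hu huv
  have h1 := tendstoInMeasure_of_tendsto_Lp huv
  obtain ⟨ns, -, hns⟩ := h1.exists_seq_tendsto_ae
  have h2 : ∀ᵐ x, ∀ n, ‖u n x‖ ≤ 1 := ae_all_iff.2 fun n => hu n
  show ∀ᵐ x, ‖v x‖ ≤ 1
  filter_upwards [h2, hns] with x h3 h4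
  exact le_of_tendsto h4.norm (Eventually.of_forall fun n => h3 (ns n))

theorem KK_norm {s : H} (hs : s ∈ KK) : ‖s‖ ≤ 1 := by
  have h := Lp.norm_le_of_ae_bound zero_le_one hs
  refine h.trans (le_of_eq ?_)
  rw [mul_one, measureUnivNNReal, measure_univ]
  simp

theorem KK_zero : (0 : H) ∈ KK := by
  show ∀ᵐ x, ‖(0 : H) x‖ ≤ 1
  filter_upwards [Lp.coeFn_zero ℂ 2 (volume : Measure X)] with x hx
  rw [hx]
  simp

theorem KK_tr {s : H} (hs : s ∈ KK) (u : X) : tr u s ∈ KK := by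
  show ∀ᵐ x, ‖(tr u s) x‖ ≤ 1
  have h1 : ∀ᵐ x : X, ‖s (x + u)‖ ≤ 1 :=
    (measurePreserving_add_right (volume : Measure X) u).quasiMeasurePreserving.ae hs
  filter_upwards [h1, tr_coe u s] with x h2 h3
  rw [h3]
  exact h2

private theorem sign_h32 {w z : ℂ} (hw : w ≠ 0) (hz : ‖z‖ ≤ 1) (h : ‖w‖ ≤ (z * conj w).re) : z = w / ‖w‖ := by
  have hw0 : 0 < ‖w‖ := norm_pos_iff.2 hw
  have hu : Complex.normSq (w / ‖w‖) = 1 := by
    rw [Complex.normSq_eq_norm_sq, norm_div, Complex.norm_real, norm_norm, div_self hw0.ne', one_pow]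
  have hz2 : Complex.normSq z ≤ 1 := by
    rw [Complex.normSq_eq_norm_sq]
    have := norm_nonneg z
    nlinarith
  have h1 := Complex.normSq_sub z (w / ‖w‖)
  have h2 : (z * conj (w / ‖w‖ : ℂ)).re = (z * conj w).re / ‖w‖ := by
    rw [map_div₀, Complex.conj_ofReal, ← mul_div_assoc, Complex.div_ofReal_re]
  have h3 : 1 ≤ (z * conj w).re / ‖w‖ := by
    rw [one_le_div hw0]
    exact h
  rw [h2, hu] at h1
  have h4 : Complex.normSq (z - w / ‖w‖) ≤ 0 := by linarith
  have h5 := Complex.normSq_eq_zero.1 (le_antisymm h4 (Complex.normSq_nonneg _))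
  exact sub_eq_zero.1 h5

theorem KK_sign {W s : H} (hs : s ∈ KK) (h : ∀ s' ∈ KK, (inner ℂ W (s' - s)).re ≤ 0) :
    ∀ᵐ x, W x ≠ 0 → s x = W x / ‖W x‖ := by
  classical
  set f : X → ℂ := {x | W x ≠ 0}.piecewise (fun x => W x / ‖W x‖) s with hf
  have hWm : StronglyMeasurable (W : X → ℂ) := Lp.stronglyMeasurable W
  have hsm : StronglyMeasurable (s : X → ℂ) := Lp.stronglyMeasurable s
  have hset : MeasurableSet {x : X | W x ≠ 0} := by
    have : {x : X | W x ≠ 0} = {x : X | W x = 0}ᶜ := rfl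
    rw [this]
    exact (hWm.measurable (measurableSet_singleton 0)).compl
  have hfm : Measurable f :=
    Measurable.piecewise hset
      (hWm.measurable.div (Complex.measurable_ofReal.comp hWm.measurable.norm)) hsm.measurable
  have hsK : ∀ᵐ x, ‖s x‖ ≤ 1 := hs
  have hfb : ∀ᵐ x, ‖f x‖ ≤ 1 := by
    filter_upwards [hsK] with x hx
    by_cases hW : W x ≠ 0
    · have e : f x = W x / ‖W x‖ := Set.piecewise_eq_of_mem _ _ _ hW
      rw [e, norm_div, Complex.norm_real, norm_norm, div_self (norm_ne_zero_iff.2 hW)]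
    · have e : f x = s x := Set.piecewise_eq_of_notMem _ _ _ hW
      rw [e]
      exact hx
  have hfL : MemLp f 2 (volume : Measure X) :=
    MemLp.of_bound hfm.aestronglyMeasurable 1 hfb
  set s' : H := hfL.toLp f with hs'
  have hs'f : (s' : X → ℂ) =ᵐ[volume] f := hfL.coeFn_toLp
  have hs'K : s' ∈ KK := by
    show ∀ᵐ x, ‖s' x‖ ≤ 1
    filter_upwards [hfb, hs'f] with x h1 h2
    rw [h2]
    exact h1
  have h1 := h s' hs'K
  have hint : Integrable (fun x => (inner ℂ (W x) ((s' - s : H) x) : ℂ)) (volume : Measure X) :=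
    L2.integrable_inner W (s' - s)
  have h2 : (inner ℂ W (s' - s)).re = ∫ x, (inner ℂ (W x) ((s' - s : H) x) : ℂ).re := by
    rw [L2.inner_def]
    exact (integral_re hint).symm
  rw [h2] at h1
  have hval : ∀ᵐ x, (inner ℂ (W x) ((s' - s : H) x) : ℂ).re =
      if W x ≠ 0 then ‖W x‖ - (s x * conj (W x)).re else 0 := by
    filter_upwards [Lp.coeFn_sub s' s, hs'f] with x h3 h4
    rw [h3, Pi.sub_apply, h4, RCLike.inner_apply]
    by_cases hW : W x ≠ 0
    · have e : f x = W x / ‖W x‖ := Set.piecewise_eq_of_mem _ _ _ hW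
      rw [if_pos hW, e, sub_mul, Complex.sub_re]
      congr 1
      rw [div_mul_eq_mul_div, Complex.mul_conj, Complex.normSq_eq_norm_sq]
      have h5 : ‖W x‖ ≠ 0 := norm_ne_zero_iff.2 hW
      rw [← Complex.ofReal_div, Complex.ofReal_re]
      field_simp
    · have e : f x = s x := Set.piecewise_eq_of_notMem _ _ _ hW
      rw [if_neg hW, e, sub_self, zero_mul, Complex.zero_re]
  have hnn : ∀ᵐ x, 0 ≤ (inner ℂ (W x) ((s' - s : H) x) : ℂ).re := by
    filter_upwards [hval, hsK] with x h3 h4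
    rw [h3]
    split_ifs with hW
    · have h5 : (s x * conj (W x)).re ≤ ‖s x * conj (W x)‖ := Complex.re_le_norm _
      rw [norm_mul, Complex.norm_conj] at h5
      have h6 : ‖s x‖ * ‖W x‖ ≤ 1 * ‖W x‖ := by gcongr
      linarith
    · exact le_rfl
  have h0 : ∫ x, (inner ℂ (W x) ((s' - s : H) x) : ℂ).re = 0 :=
    le_antisymm h1 (integral_nonneg_of_ae hnn)
  have hre : Integrable (fun x => (inner ℂ (W x) ((s' - s : H) x) : ℂ).re) (volume : Measure X) := hint.re
  have hz := (integral_eq_zero_iff_of_nonneg_ae hnn hre).1 h0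
  filter_upwards [hz, hval, hsK] with x h3 h4 h5 hW
  rw [h4, if_pos hW] at h3
  have h6 : ‖W x‖ - (s x * conj (W x)).re = 0 := h3
  exact sign_h32 hW h5 (by linarith)

end Pool.Agent.Helper7.SV
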