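import Pool.Agent.Helper7.SV.D

/-!
# SV-L1: locality in one direction

If `V = ∂_n² W` in `L²` then `V = 0` a.e. on `{W = 0}`.
Let `Z = {W = 0}` (measurable: use a measurable representative, e.g. `Lp.stronglyMeasurable`), `z = 1_Z ∈ H`
(`indicatorConstLp`).  Take `h_j = 1/(j+1) → 0`.  `sd n h_j W → V`, `tr (pt n (±h_j)) z → z` in `H`.
Extract a subsequence (`tendstoInMeasure_of_tendsto_Lp` / `Tendsto ... exists_seq_tendsto_ae`, three times) along which
all three converge a.e.  For a.e. `x ∈ Z`: `z (x ± pt n h_j) → 1`, values in `{0,1}`, so eventually `x ± pt n h_j ∈ Z`, so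
`sd n h_j W x = h_j⁻²(W(x+u)+W(x-u)-2W x) = 0` eventually (`tr_coe`, for countably many `u`), so `V x = 0`.
-/

set_option autoImplicit false

noncomputable section

open scoped ComplexConjugate Topology
open MeasureTheory UnitAddTorus Filter

namespace Pool.Agent.Helper7.SV

theorem sd_coe (n : Ix) (h : ℝ) (W : H) : (sd n h W : X → ℂ) =ᵐ[volume]
    fun x => (((h ^ 2)⁻¹ : ℝ) : ℂ) * (W (x + pt n h) + W (x + pt n (-h)) - 2 * W x) := by
  unfold sd
  filter_upwards [Lp.coeFn_smul (((h ^ 2)⁻¹ : ℝ) : ℂ)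
      (tr (pt n h) W + tr (pt n (-h)) W - (2 : ℂ) • W),
    Lp.coeFn_sub (tr (pt n h) W + tr (pt n (-h)) W) ((2 : ℂ) • W),
    Lp.coeFn_add (tr (pt n h) W) (tr (pt n (-h)) W), Lp.coeFn_smul (2 : ℂ) W,
    tr_coe (pt n h) W, tr_coe (pt n (-h)) W] with x h1 h2 h3 h4 h5 h6
  rw [h1, Pi.smul_apply, h2, Pi.sub_apply, h3, Pi.add_apply, h4, Pi.smul_apply, h5, h6]
  simp only [smul_eq_mul]

theorem ind_tr (Z : Set X) (hZ : MeasurableSet Z) (u : X) :
    (tr u (indicatorConstLp 2 hZ (measure_ne_top volume Z) (1 : ℂ)) : X → ℂ) =ᵐ[volume]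
      fun x => Z.indicator (fun _ => (1 : ℂ)) (x + u) := by
  have h1 := tr_coe u (indicatorConstLp 2 hZ (measure_ne_top volume Z) (1 : ℂ))
  have h2 : (indicatorConstLp 2 hZ (measure_ne_top volume Z) (1 : ℂ) : X → ℂ) =ᵐ[volume]
      Z.indicator (fun _ => (1 : ℂ)) := indicatorConstLp_coeFn
  have h3 := (measurePreserving_add_right (volume : Measure X) u).quasiMeasurePreserving.ae_eq_comp
    h2
  exact h1.trans h3

theorem ind_event {Z : Set X} {y : ℕ → X}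
    (h : Tendsto (fun j => Z.indicator (fun _ => (1 : ℂ)) (y j)) atTop (𝓝 1)) :
    ∀ᶠ j in atTop, y j ∈ Z := by
  have h1 : ∀ᶠ j in atTop, Z.indicator (fun _ => (1 : ℂ)) (y j) ≠ 0 :=
    h.eventually_ne one_ne_zero
  filter_upwards [h1] with j hj
  by_contra hcon
  exact hj (Set.indicator_of_notMem hcon _)

theorem loc_dir (n : Ix) (W V : H)
    (hV : ∀ k, fc V k = ((-(4 * Real.pi ^ 2 * dt n k ^ 2) : ℝ) : ℂ) * fc W k) :
    ∀ᵐ x, W x = 0 → V x = 0 := by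
  set Z : Set X := {x | W x = 0} with hZdef
  have hZ : MeasurableSet Z :=
    (Lp.stronglyMeasurable W).measurable (measurableSet_singleton (0 : ℂ))
  set z : H := indicatorConstLp 2 hZ (measure_ne_top volume Z) (1 : ℂ) with hz
  set hs : ℕ → ℝ := fun j => 1 / ((j : ℝ) + 1) with hhs
  have hs0 : Tendsto hs atTop (𝓝 0) := tendsto_one_div_add_atTop_nhds_zero_nat
  have hsne : Tendsto hs atTop (𝓝[≠] 0) := by
    rw [tendsto_nhdsWithin_iff]
    refine ⟨hs0, Filter.Eventually.of_forall fun j => ?_⟩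
    simp only [Set.mem_compl_iff, Set.mem_singleton_iff, hhs]
    positivity
  have hsneg : Tendsto (fun j => -hs j) atTop (𝓝 0) := by simpa using hs0.neg
  have t1 : Tendsto (fun j => sd n (hs j) W) atTop (𝓝 V) := (sd_tendsto n W V hV).comp hsne
  have t2 : Tendsto (fun j => tr (pt n (hs j)) z) atTop (𝓝 z) := (tr_tendsto n z).comp hs0
  have t3 : Tendsto (fun j => tr (pt n (-hs j)) z) atTop (𝓝 z) := (tr_tendsto n z).comp hsneg
  obtain ⟨n1, hn1, a1⟩ := (tendstoInMeasure_of_tendsto_Lp t1).exists_seq_tendsto_ae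
  obtain ⟨n2, hn2, a2⟩ := (tendstoInMeasure_of_tendsto_Lp
    (t2.comp hn1.tendsto_atTop)).exists_seq_tendsto_ae
  obtain ⟨n3, hn3, a3⟩ := (tendstoInMeasure_of_tendsto_Lp
    (t3.comp (hn1.comp hn2).tendsto_atTop)).exists_seq_tendsto_ae
  have e1 : ∀ᵐ x, ∀ j, (sd n (hs j) W : X → ℂ) x =
      (((hs j ^ 2)⁻¹ : ℝ) : ℂ) * (W (x + pt n (hs j)) + W (x + pt n (-hs j)) - 2 * W x) :=
    ae_all_iff.2 fun j => sd_coe n (hs j) W
  have e2 : ∀ᵐ x, ∀ j, (tr (pt n (hs j)) z : X → ℂ) x =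
      Z.indicator (fun _ => (1 : ℂ)) (x + pt n (hs j)) :=
    ae_all_iff.2 fun j => ind_tr Z hZ _
  have e3 : ∀ᵐ x, ∀ j, (tr (pt n (-hs j)) z : X → ℂ) x =
      Z.indicator (fun _ => (1 : ℂ)) (x + pt n (-hs j)) :=
    ae_all_iff.2 fun j => ind_tr Z hZ _
  have e4 : (z : X → ℂ) =ᵐ[volume] Z.indicator (fun _ => (1 : ℂ)) := indicatorConstLp_coeFn
  filter_upwards [a1, a2, a3, e1, e2, e3, e4] with x b1 b2 b3 c1 c2 c3 c4 hWx
  have hxZ : x ∈ Z := hWx
  rw [c4, Set.indicator_of_mem hxZ] at b2 b3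
  simp only [Function.comp_apply] at b1 b2 b3
  have d2 : ∀ᶠ j in atTop, x + pt n (hs (n1 (n2 j))) ∈ Z := by
    refine ind_event (b2.congr fun j => ?_)
    rw [c2]
  have d3 : ∀ᶠ j in atTop, x + pt n (-hs (n1 (n2 (n3 j)))) ∈ Z := by
    refine ind_event (b3.congr fun j => ?_)
    rw [c3]
  have d2' : ∀ᶠ j in atTop, x + pt n (hs (n1 (n2 (n3 j)))) ∈ Z :=
    hn3.tendsto_atTop.eventually d2
  have d1 : Tendsto (fun j => (sd n (hs (n1 (n2 (n3 j)))) W : X → ℂ) x) atTop (𝓝 (V x)) :=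
    b1.comp (hn2.comp hn3).tendsto_atTop
  have d4 : Tendsto (fun j => (sd n (hs (n1 (n2 (n3 j)))) W : X → ℂ) x) atTop (𝓝 0) := by
    refine tendsto_const_nhds.congr' ?_
    filter_upwards [d2', d3] with j g1 g2
    rw [c1]
    have g1' : W (x + pt n (hs (n1 (n2 (n3 j))))) = 0 := g1
    have g2' : W (x + pt n (-hs (n1 (n2 (n3 j))))) = 0 := g2
    rw [g1', g2', hWx]
    simp
  exact tendsto_nhds_unique d1 d4

end Pool.Agent.Helper7.SV
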