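import Mathlib

/-!
# SV-P: minimal point of a weakly compact convex set (abstract Hilbert space)

`R` self-adjoint with dense range, `K` convex, closed, bounded, nonempty.  Then there is `s ∈ K` with
`0 ≤ Re ⟪R (R (a + s)), s' - s⟫` for all `s' ∈ K`.

Proof. `C = closure {R (a + s) : s ∈ K}` is closed convex; let `p ∈ C` be its point of smallest norm
(`exists_norm_eq_iInf_of_complete_convex`, `norm_eq_iInf_iff_real_inner_le_zero` with `u = 0`; real inner product =
real part of the complex one, `InnerProductSpace.rclikeToReal`): `Re ⟪p, c - p⟫ ≥ 0` for `c ∈ C`.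
Let `s_n ∈ K`, `R (a + s_n) → p`.  For `φ = R ψ`: `⟪s_n, Rψ⟫ = ⟪R s_n, ψ⟫` converges; `s_n` is bounded and the range of `R` is dense,
so `⟪s_n, φ⟫` converges (Cauchy) for all `φ`; Riesz (`InnerProductSpace.toDual`) gives `s` with `⟪s_n, φ⟫ → ⟪s, φ⟫` for all `φ`.
`K` closed convex is weakly closed: let `s₀` be the projection of `s` on `K`; `Re ⟪s - s₀, s_n - s₀⟫ ≤ 0`, limit: `‖s - s₀‖² ≤ 0`, so `s ∈ K`.
`⟪R s, ψ⟫ = ⟪s, Rψ⟫ = lim ⟪R s_n, ψ⟫ = ⟪p - R a, ψ⟫`, so `R (a + s) = p`.
Finally `Re ⟪R p, s' - s⟫ = Re ⟪p, R (a+s') - R (a+s)⟫ ≥ 0`.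
-/

set_option autoImplicit false

noncomputable section

open scoped ComplexConjugate Topology
open Filter

namespace Pool.Agent.Helper7.SV

/-- projection on a closed convex set of a complex Hilbert space -/
theorem exists_proj {E : Type*} [NormedAddCommGroup E] [InnerProductSpace ℂ E] [CompleteSpace E]
    (K : Set E) (hc : Convex ℝ K) (hcl : IsClosed K) (hne : K.Nonempty) (u : E) :
    ∃ v ∈ K, ∀ w ∈ K, (inner ℂ (u - v) (w - v)).re ≤ 0 := by
  let _ : InnerProductSpace ℝ E := InnerProductSpace.rclikeToReal ℂ E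
  obtain ⟨v, hv, h⟩ := exists_norm_eq_iInf_of_complete_convex hne hcl.isComplete hc u
  refine ⟨v, hv, fun w hw => ?_⟩
  have := (norm_eq_iInf_iff_real_inner_le_zero hc hv).1 h w hw
  exact this

/-- a bounded sequence which converges weakly against a dense set converges weakly -/
theorem exists_weak_limit {E : Type*} [NormedAddCommGroup E] [InnerProductSpace ℂ E]
    [CompleteSpace E] (s : ℕ → E) (C : ℝ) (hC : ∀ n, ‖s n‖ ≤ C) (D : Set E) (hD : Dense D)
    (h : ∀ φ ∈ D, ∃ l, Tendsto (fun n => inner ℂ (s n) φ) atTop (𝓝 l)) :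
    ∃ t : E, ∀ φ, Tendsto (fun n => inner ℂ (s n) φ) atTop (𝓝 (inner ℂ t φ)) := by
  have hC0 : 0 ≤ C := (norm_nonneg _).trans (hC 0)
  have h1 : ∀ φ : E, ∃ l : ℂ, Tendsto (fun n => inner ℂ (s n) φ) atTop (𝓝 l) := by
    intro φ
    apply cauchySeq_tendsto_of_complete
    rw [Metric.cauchySeq_iff']
    intro ε hε
    obtain ⟨ψ, hψ, hd⟩ := hD.exists_dist_lt φ (show 0 < ε / (3 * (C + 1)) by positivity)
    obtain ⟨l, hl⟩ := h ψ hψ
    have hcs := hl.cauchySeq
    rw [Metric.cauchySeq_iff'] at hcs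
    obtain ⟨N, hN⟩ := hcs (ε / 3) (by positivity)
    refine ⟨N, fun n hn => ?_⟩
    have e1 : ∀ m, dist (inner ℂ (s m) φ) (inner ℂ (s m) ψ) < ε / 3 := by
      intro m
      rw [dist_eq_norm, ← inner_sub_right]
      calc ‖inner ℂ (s m) (φ - ψ)‖ ≤ ‖s m‖ * ‖φ - ψ‖ := norm_inner_le_norm _ _
        _ ≤ C * ‖φ - ψ‖ := by gcongr; exact hC m
        _ ≤ (C + 1) * ‖φ - ψ‖ := by gcongr; linarith
        _ < (C + 1) * (ε / (3 * (C + 1))) := by
            rw [← dist_eq_norm]; gcongr
        _ = ε / 3 := by field_simp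
    calc dist (inner ℂ (s n) φ) (inner ℂ (s N) φ)
        ≤ dist (inner ℂ (s n) φ) (inner ℂ (s n) ψ) + dist (inner ℂ (s n) ψ) (inner ℂ (s N) ψ)
          + dist (inner ℂ (s N) ψ) (inner ℂ (s N) φ) := dist_triangle4 _ _ _ _
      _ < ε / 3 + ε / 3 + ε / 3 := by
          have := e1 n
          have h2 := hN n hn
          have h3 := e1 N
          rw [dist_comm] at h3
          gcongr
      _ = ε := by ring
  choose L hL using h1
  let f : E →ₗ[ℂ] ℂ :=
    { toFun := L
      map_add' := by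
        intro x y
        refine tendsto_nhds_unique (hL (x + y)) ?_
        simp_rw [inner_add_right]
        exact (hL x).add (hL y)
      map_smul' := by
        intro c x
        refine tendsto_nhds_unique (hL (c • x)) ?_
        simp_rw [inner_smul_right]
        exact (hL x).const_mul c }
  let F : E →L[ℂ] ℂ := f.mkContinuous C (by
    intro x
    refine le_of_tendsto (hL x).norm (Eventually.of_forall fun n => ?_)
    exact (norm_inner_le_norm _ _).trans (by gcongr; exact hC n))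
  refine ⟨(InnerProductSpace.toDual ℂ E).symm F, fun φ => ?_⟩
  rw [InnerProductSpace.toDual_symm_apply]
  exact hL φ

theorem exists_min {E : Type*} [NormedAddCommGroup E] [InnerProductSpace ℂ E] [CompleteSpace E]
    (R : E →L[ℂ] E) (hR : ∀ v w, inner ℂ (R v) w = inner ℂ v (R w)) (hd : DenseRange R)
    (K : Set E) (hc : Convex ℝ K) (hcl : IsClosed K) (hb : ∃ C : ℝ, ∀ s ∈ K, ‖s‖ ≤ C)
    (hne : K.Nonempty) (a : E) :
    ∃ s ∈ K, ∀ s' ∈ K, 0 ≤ (inner ℂ (R (R (a + s))) (s' - s)).re := by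
  obtain ⟨C, hC⟩ := hb
  set I : Set E := (fun s => R (a + s)) '' K with hI
  have hIc : Convex ℝ I := by
    have : I = (fun x => R a + x) '' ((R.restrictScalars ℝ) '' K) := by
      rw [hI, Set.image_image]
      refine Set.image_congr fun s _ => ?_
      simp
    rw [this]
    exact (hc.linear_image (R.restrictScalars ℝ).toLinearMap).translate (R a)
  obtain ⟨p, hp, hmin⟩ := exists_proj (closure I) hIc.closure isClosed_closure
    ((hne.image _).closure) 0
  obtain ⟨y, hyI, hy⟩ := mem_closure_iff_seq_limit.1 hp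
  have hyI' : ∀ n, ∃ s ∈ K, R (a + s) = y n := fun n => hyI n
  choose s hsK hsy using hyI'
  obtain ⟨t, ht⟩ := exists_weak_limit s C (fun n => hC _ (hsK n)) (Set.range R) hd (by
    rintro _ ⟨ψ, rfl⟩
    refine ⟨inner ℂ (p - R a) ψ, ?_⟩
    have : ∀ n, inner ℂ (s n) (R ψ) = inner ℂ (y n - R a) ψ := by
      intro n
      rw [← hR, ← hsy n, map_add, add_sub_cancel_left]
    simp_rw [this]
    exact (hy.sub_const (R a)).inner tendsto_const_nhds)
  have htK : t ∈ K := by
    obtain ⟨v, hv, hv2⟩ := exists_proj K hc hcl hne t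
    have h1 : ∀ n, (inner ℂ (t - v) (s n - v)).re ≤ 0 := fun n => hv2 _ (hsK n)
    have h2 : Tendsto (fun n => (inner ℂ (t - v) (s n - v)).re) atTop
        (𝓝 (inner ℂ (t - v) (t - v)).re) := by
      have e : ∀ x, (inner ℂ (t - v) (x - v)).re
          = (inner ℂ x (t - v)).re - (inner ℂ v (t - v)).re := by
        intro x
        rw [← inner_conj_symm, inner_sub_left, Complex.conj_re, Complex.sub_re]
      simp_rw [e]
      exact ((Complex.continuous_re.tendsto _).comp (ht (t - v))).sub_const _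
    have h3 : (inner ℂ (t - v) (t - v)).re ≤ 0 := le_of_tendsto h2 (Eventually.of_forall h1)
    have h4 : t - v = 0 := by
      have h5 : ‖t - v‖ ^ 2 ≤ 0 := by
        rw [← inner_self_eq_norm_sq (𝕜 := ℂ)]
        exact h3
      have h6 : ‖t - v‖ = 0 := by nlinarith [norm_nonneg (t - v)]
      exact norm_eq_zero.1 h6
    rw [sub_eq_zero.1 h4]
    exact hv
  have hRt : R (a + t) = p := by
    refine ext_inner_right ℂ fun ψ => ?_
    have h1 : Tendsto (fun n => inner ℂ (y n) ψ) atTop (𝓝 (inner ℂ p ψ)) :=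
      hy.inner tendsto_const_nhds
    have h2 : Tendsto (fun n => inner ℂ (y n) ψ) atTop (𝓝 (inner ℂ (R (a + t)) ψ)) := by
      have : ∀ n, inner ℂ (y n) ψ = inner ℂ (R a) ψ + inner ℂ (s n) (R ψ) := by
        intro n
        rw [← hsy n, map_add, inner_add_left, hR (s n)]
      simp_rw [this]
      rw [map_add, inner_add_left, hR t]
      exact (ht (R ψ)).const_add _
    exact tendsto_nhds_unique h2 h1
  refine ⟨t, htK, fun s' hs' => ?_⟩
  have h1 := hmin (R (a + s')) (subset_closure ⟨s', hs', rfl⟩)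
  rw [hR, map_sub, hRt]
  have h2 : R (a + s') - p = R s' - R t := by
    rw [← hRt, map_add, map_add]; abel
  rw [h2] at h1
  rw [zero_sub, inner_neg_left, Complex.neg_re] at h1
  linarith

end Pool.Agent.Helper7.SV
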