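import Pool.Agent.Helper7.SV.F

/-!
# SV-R: Fourier multipliers on `H`

`R v` has coefficients `m k * fc v k`.  Self-adjoint: `hasSum_fc` and `m` real.  Dense range: contains all
`mFourierLp 2 n = R ((m n)⁻¹ • mFourierLp 2 n)`, whose span is dense.
-/

set_option autoImplicit false

noncomputable section

open scoped ComplexConjugate Topology
open MeasureTheory UnitAddTorus Filter

namespace Pool.Agent.Helper7.SV

theorem exists_mult (m : Ix → ℝ) (C : ℝ) (hm : ∀ k, 0 < m k ∧ m k ≤ C) :
    ∃ R : H →L[ℂ] H, (∀ v k, fc (R v) k = (m k : ℂ) * fc v k) ∧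
      (∀ v w, inner ℂ (R v) w = inner ℂ v (R w)) ∧ DenseRange R := by
  have hC : 0 ≤ C := (hm 0).1.le.trans (hm 0).2
  have hbd : ∀ (v : H) (k : Ix), ‖(m k : ℂ) * fc v k‖ ≤ C * ‖fc v k‖ := by
    intro v k
    rw [norm_mul, Complex.norm_real, Real.norm_eq_abs, abs_of_pos (hm k).1]
    exact mul_le_mul_of_nonneg_right (hm k).2 (norm_nonneg _)
  have hex : ∀ v : H, ∃ w : H, ∀ k, fc w k = (m k : ℂ) * fc v k := fun v =>
    exists_fc _ v C (hbd v)
  choose R0 hR0 using hex
  let R1 : H →ₗ[ℂ] H :=
    { toFun := R0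
      map_add' := by
        intro x y
        apply fc_ext
        intro k
        rw [fc_add, hR0, hR0, hR0, fc_add]; ring
      map_smul' := by
        intro c x
        apply fc_ext
        intro k
        rw [RingHom.id_apply, fc_smul, hR0, hR0, fc_smul]; ring }
  have hle : ∀ v : H, ‖R1 v‖ ≤ C * ‖v‖ := by
    intro v
    have h1 : ‖R1 v‖ ^ 2 ≤ (C * ‖v‖) ^ 2 := by
      rw [mul_pow]
      refine hasSum_le ?_ (hasSum_fc_sq (R1 v)) ((hasSum_fc_sq v).mul_left (C ^ 2))
      intro k
      have : fc (R1 v) k = (m k : ℂ) * fc v k := hR0 v k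
      rw [this, ← mul_pow]
      exact pow_le_pow_left₀ (norm_nonneg _) (hbd v k) 2
    exact le_of_sq_le_sq h1 (by positivity)
  let R : H →L[ℂ] H := R1.mkContinuous C hle
  have hR : ∀ v k, fc (R v) k = (m k : ℂ) * fc v k := fun v k => hR0 v k
  refine ⟨R, hR, ?_, ?_⟩
  · intro v w
    have h1 := hasSum_fc (R v) w
    have h2 := hasSum_fc v (R w)
    refine h1.unique ?_
    refine h2.congr_fun ?_
    intro k
    rw [hR, hR, map_mul, Complex.conj_ofReal]; ring
  · have h1 : (Submodule.span ℂ (Set.range (mFourierLp (d := Fin 2) 2)) : Set H) ⊆ Set.range R := by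
      have : Submodule.span ℂ (Set.range (mFourierLp (d := Fin 2) 2)) ≤ LinearMap.range R1 := by
        rw [Submodule.span_le]
        rintro _ ⟨n, rfl⟩
        refine ⟨((m n : ℂ)⁻¹) • mFourierLp 2 n, ?_⟩
        apply fc_ext
        intro k
        have h2 : fc (R1 (((m n : ℂ)⁻¹) • mFourierLp 2 n)) k =
            (m k : ℂ) * fc (((m n : ℂ)⁻¹) • mFourierLp 2 n) k := hR0 _ k
        rw [h2, fc_smul, fc_basis]
        by_cases hk : k = n
        · subst hk
          have : (m k : ℂ) ≠ 0 := by exact_mod_cast (hm k).1.ne'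
          simp only [if_true]
          field_simp
        · simp [hk]
      intro x hx
      obtain ⟨y, hy⟩ := this hx
      exact ⟨y, hy⟩
    have h2 : Dense (Submodule.span ℂ (Set.range (mFourierLp (d := Fin 2) 2)) : Set H) := by
      rw [Submodule.dense_iff_topologicalClosure_eq_top]
      exact span_mFourierLp_closure_eq_top (by simp)
    exact h2.mono h1

end Pool.Agent.Helper7.SV
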