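import Pool.Agent.Helper7.SV.V
import Pool.Agent.Helper7.SV.R
import Pool.Agent.Helper7.SV.P

/-!
# SV-S: existence of the solution `(s, W, M)` and the bound for `W`

`exists_sol`: `m k = (lam ε k)^(-1/2)` (`0 < m k ≤ (ε/2)^(-1/2)`, `(m k)² = 1/lam ε k`), `R` from `exists_mult`, `s` from
`exists_min` with `K = KK`, `W = -(R (R (a + s)))`, `M = a + s + (ε/2) W`.
`W_bound`: coefficients: `fc W k = -(fc a k + fc s k)/lam ε k`.  From `0 ≤ Re ⟪W, s⟫ = Σ Re (conj (fc W k) fc s k)`: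
`(2/ε) ‖fc s 0‖² ≤ Σ_{k≠0} ‖fc a k + fc s k‖ ‖fc s k‖ / (2π²) ≤ ‖a + s‖ ‖s‖/(2π²) ≤ (‖a‖+1)²/(2π²)` (qq k ≥ 1 for k ≠ 0; Cauchy–Schwarz or AM-GM),
so `ε² ‖fc W 0‖² = 4 ‖fc s 0‖² ≤ ε (‖a‖+1)²/π²` and `ε² Σ_{k≠0} ‖fc W k‖² ≤ ε² (‖a‖+1)²/(4π⁴)`.  `1/π² + 1/(4π⁴) ≤ 1`.
-/

set_option autoImplicit false

noncomputable section

open scoped ComplexConjugate Topology
open MeasureTheory UnitAddTorus Filter

namespace Pool.Agent.Helper7.SV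

private lemma qq_nonneg (k : Ix) : 0 ≤ qq k := by
  unfold qq
  positivity

private lemma qq_zero : qq 0 = 0 := by
  unfold qq
  simp

private lemma one_le_qq {k : Ix} (hk : k ≠ 0) : 1 ≤ qq k := by
  have h1 : k 0 ≠ 0 ∨ k 1 ≠ 0 := by
    by_contra hcon
    rw [not_or, not_not, not_not] at hcon
    apply hk
    funext i
    fin_cases i
    · exact hcon.1
    · exact hcon.2
  have h2 : (1 : ℤ) ≤ (k 0) ^ 2 + (k 1) ^ 2 := by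
    rcases h1 with h | h
    · have := Int.one_le_abs h
      nlinarith [sq_abs (k 0), sq_nonneg (k 1)]
    · have := Int.one_le_abs h
      nlinarith [sq_abs (k 1), sq_nonneg (k 0)]
  unfold qq
  exact_mod_cast h2

private lemma lam_ge (ε : ℝ) (k : Ix) : ε / 2 ≤ lam ε k := by
  unfold lam
  have h1 := qq_nonneg k
  have h2 : 0 ≤ 2 * Real.pi ^ 2 * qq k := by positivity
  linarith

theorem exists_sol (a : H) {ε : ℝ} (hε : 0 < ε) :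
    ∃ s W M : H, s ∈ KK ∧ (∀ s' ∈ KK, (inner ℂ W (s' - s)).re ≤ 0) ∧
      M = a + s + ((ε / 2 : ℝ) : ℂ) • W ∧
      (∀ k, fc M k = ((-(2 * Real.pi ^ 2 * qq k) : ℝ) : ℂ) * fc W k) := by
  have hε2 : 0 < ε / 2 := by linarith
  have hlam : ∀ k, 0 < lam ε k := fun k => hε2.trans_le (lam_ge ε k)
  obtain ⟨R, hR1, hR2, hR3⟩ := exists_mult (fun k => (Real.sqrt (lam ε k))⁻¹)
    ((Real.sqrt (ε / 2))⁻¹) (fun k => by
      have h1 : 0 < Real.sqrt (ε / 2) := Real.sqrt_pos.2 hε2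
      have h2 : Real.sqrt (ε / 2) ≤ Real.sqrt (lam ε k) := Real.sqrt_le_sqrt (lam_ge ε k)
      exact ⟨inv_pos.2 (h1.trans_le h2), inv_anti₀ h1 h2⟩)
  obtain ⟨s, hs, hs'⟩ := exists_min R hR2 hR3 KK KK_convex KK_closed ⟨1, fun s hs => KK_norm hs⟩
    ⟨0, KK_zero⟩ a
  refine ⟨s, -(R (R (a + s))), a + s + ((ε / 2 : ℝ) : ℂ) • (-(R (R (a + s)))), hs, ?_, rfl, ?_⟩
  · intro s' h'
    have h1 := hs' s' h'
    rw [inner_neg_left, Complex.neg_re]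
    linarith
  · intro k
    have h1 : ((Real.sqrt (lam ε k))⁻¹ : ℝ) * (Real.sqrt (lam ε k))⁻¹ = (lam ε k)⁻¹ := by
      rw [← mul_inv, Real.mul_self_sqrt (hlam k).le]
    have h2 : fc (-(R (R (a + s)))) k = -(((lam ε k)⁻¹ : ℝ) : ℂ) * (fc a k + fc s k) := by
      rw [fc_neg, hR1, hR1, fc_add, ← h1]
      push_cast
      ring
    have h3 : (((lam ε k) : ℝ) : ℂ) * (((lam ε k)⁻¹ : ℝ) : ℂ) = 1 := by
      rw [← Complex.ofReal_mul, mul_inv_cancel₀ (hlam k).ne', Complex.ofReal_one]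
    rw [fc_add, fc_add, fc_smul, h2]
    have h4 : ((-(2 * Real.pi ^ 2 * qq k) : ℝ) : ℂ) = ((ε / 2 : ℝ) : ℂ) - ((lam ε k : ℝ) : ℂ) := by
      rw [← Complex.ofReal_sub]
      congr 1
      unfold lam
      ring
    rw [h4]
    linear_combination (-(fc a k + fc s k)) * h3

theorem W_bound {a : H} (ha : fc a 0 = 0) {ε : ℝ} (hε : 0 < ε) (hε1 : ε ≤ 1) {s W M : H}
    (hs : s ∈ KK) (hv : ∀ s' ∈ KK, (inner ℂ W (s' - s)).re ≤ 0)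
    (hM1 : M = a + s + ((ε / 2 : ℝ) : ℂ) • W)
    (hM : ∀ k, fc M k = ((-(2 * Real.pi ^ 2 * qq k) : ℝ) : ℂ) * fc W k) :
    ε ^ 2 * ‖W‖ ^ 2 ≤ ε * (‖a‖ + 1) ^ 2 := by
  have hpi : 3 < Real.pi := Real.pi_gt_three
  have hpi2 : 9 < Real.pi ^ 2 := by nlinarith
  -- coefficients
  have hx : ∀ k, fc (a + s) k = -((lam ε k : ℝ) : ℂ) * fc W k := by
    intro k
    have h1 := hM k
    rw [hM1, fc_add, fc_smul] at h1
    have h4 : ((-(2 * Real.pi ^ 2 * qq k) : ℝ) : ℂ) = ((ε / 2 : ℝ) : ℂ) - ((lam ε k : ℝ) : ℂ) := by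
      rw [← Complex.ofReal_sub]
      congr 1
      unfold lam
      ring
    rw [h4] at h1
    linear_combination h1
  have hnx : ∀ k, ‖fc (a + s) k‖ = lam ε k * ‖fc W k‖ := by
    intro k
    have h1 : 0 ≤ lam ε k := le_trans (by linarith) (lam_ge ε k)
    rw [hx k, norm_mul, norm_neg, Complex.norm_real, Real.norm_eq_abs, abs_of_nonneg h1]
  have hs0 : fc s 0 = -((ε / 2 : ℝ) : ℂ) * fc W 0 := by
    have h1 := hx 0
    rw [fc_add, ha, zero_add] at h1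
    rw [h1]
    unfold lam
    rw [qq_zero, mul_zero, zero_add]
  have hlam1 : ∀ k : Ix, k ≠ 0 → 2 * Real.pi ^ 2 ≤ lam ε k := by
    intro k hk
    have h1 := one_le_qq hk
    unfold lam
    nlinarith
  have hW1 : ∀ k : Ix, k ≠ 0 → ‖fc W k‖ ≤ ‖fc (a + s) k‖ / (2 * Real.pi ^ 2) := by
    intro k hk
    rw [le_div_iff₀ (by positivity), hnx k, mul_comm]
    exact mul_le_mul_of_nonneg_right (hlam1 k hk) (norm_nonneg _)
  have hns0 : ‖fc s 0‖ = ε / 2 * ‖fc W 0‖ := by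
    rw [hs0, norm_mul, norm_neg, Complex.norm_real, Real.norm_eq_abs, abs_of_pos (by linarith)]
  -- norms
  have hsn : ‖s‖ ≤ 1 := KK_norm hs
  have hasn : ‖a + s‖ ≤ ‖a‖ + 1 := (norm_add_le _ _).trans (by linarith)
  have hna := norm_nonneg a
  have hasn2 : ‖a + s‖ ^ 2 ≤ (‖a‖ + 1) ^ 2 := by
    have := norm_nonneg (a + s)
    nlinarith
  have hsn2 : ‖s‖ ^ 2 ≤ (‖a‖ + 1) ^ 2 := by
    have := norm_nonneg s
    nlinarith
  -- first step: the coefficient of `s`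
  have hWs : 0 ≤ (inner ℂ W s).re := by
    have h1 := hv 0 KK_zero
    rw [zero_sub, inner_neg_right, Complex.neg_re] at h1
    linarith
  have h1 : HasSum (fun k => (conj (fc W k) * fc s k).re) (inner ℂ W s).re :=
    Complex.hasSum_re (hasSum_fc W s)
  have h2 : HasSum (fun k => (1 / (4 * Real.pi ^ 2)) * (‖fc (a + s) k‖ ^ 2 + ‖fc s k‖ ^ 2) -
      (if k = 0 then 2 / ε * ‖fc s 0‖ ^ 2 else 0))
      ((1 / (4 * Real.pi ^ 2)) * (‖a + s‖ ^ 2 + ‖s‖ ^ 2) - 2 / ε * ‖fc s 0‖ ^ 2) :=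
    (((hasSum_fc_sq (a + s)).add (hasSum_fc_sq s)).mul_left _).sub
      (hasSum_ite_eq 0 (2 / ε * ‖fc s 0‖ ^ 2))
  have h3 : ∀ k, (conj (fc W k) * fc s k).re ≤
      (1 / (4 * Real.pi ^ 2)) * (‖fc (a + s) k‖ ^ 2 + ‖fc s k‖ ^ 2) -
      (if k = 0 then 2 / ε * ‖fc s 0‖ ^ 2 else 0) := by
    intro k
    by_cases hk : k = 0
    · subst hk
      rw [if_pos rfl]
      have e1 : (conj (fc W 0) * fc s 0).re = -(ε / 2) * ‖fc W 0‖ ^ 2 := by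
        rw [hs0]
        have e2 : conj (fc W 0) * (-((ε / 2 : ℝ) : ℂ) * fc W 0) =
            ((-(ε / 2) * ‖fc W 0‖ ^ 2 : ℝ) : ℂ) := by
          have e3 : conj (fc W 0) * fc W 0 = ((‖fc W 0‖ ^ 2 : ℝ) : ℂ) := by
            rw [mul_comm, Complex.mul_conj, Complex.normSq_eq_norm_sq]
          push_cast at e3 ⊢
          linear_combination (-(ε : ℂ) / 2) * e3
        rw [e2, Complex.ofReal_re]
      rw [e1, hns0]
      have e2 : 2 / ε * (ε / 2 * ‖fc W 0‖) ^ 2 = ε / 2 * ‖fc W 0‖ ^ 2 := by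
        field_simp
      rw [e2]
      have e3 : 0 ≤ 1 / (4 * Real.pi ^ 2) *
          (‖fc (a + s) 0‖ ^ 2 + (ε / 2 * ‖fc W 0‖) ^ 2) := by positivity
      linarith
    · rw [if_neg hk, sub_zero]
      have e1 : (conj (fc W k) * fc s k).re ≤ ‖fc W k‖ * ‖fc s k‖ := by
        refine (Complex.re_le_norm _).trans ?_
        rw [norm_mul, RCLike.norm_conj]
      have e2 := mul_le_mul_of_nonneg_right (hW1 k hk) (norm_nonneg (fc s k))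
      have e3 : ‖fc (a + s) k‖ / (2 * Real.pi ^ 2) * ‖fc s k‖ =
          1 / (4 * Real.pi ^ 2) * (2 * ‖fc (a + s) k‖ * ‖fc s k‖) := by
        field_simp
        ring
      have e4 : 2 * ‖fc (a + s) k‖ * ‖fc s k‖ ≤ ‖fc (a + s) k‖ ^ 2 + ‖fc s k‖ ^ 2 :=
        two_mul_le_add_sq _ _
      have e5 := mul_le_mul_of_nonneg_left e4 (show 0 ≤ 1 / (4 * Real.pi ^ 2) by positivity)
      linarith
  have h4 := hasSum_le h3 h1 h2
  have h5 : 2 / ε * ‖fc s 0‖ ^ 2 ≤ 1 / (4 * Real.pi ^ 2) * (2 * (‖a‖ + 1) ^ 2) := by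
    have e1 := mul_le_mul_of_nonneg_left (show ‖a + s‖ ^ 2 + ‖s‖ ^ 2 ≤ 2 * (‖a‖ + 1) ^ 2 by linarith)
      (show 0 ≤ 1 / (4 * Real.pi ^ 2) by positivity)
    linarith
  -- second step
  have h6 : HasSum (fun k => (1 / (2 * Real.pi ^ 2)) ^ 2 * ‖fc (a + s) k‖ ^ 2 +
      (if k = 0 then ‖fc W 0‖ ^ 2 else 0))
      ((1 / (2 * Real.pi ^ 2)) ^ 2 * ‖a + s‖ ^ 2 + ‖fc W 0‖ ^ 2) :=
    ((hasSum_fc_sq (a + s)).mul_left _).add (hasSum_ite_eq 0 (‖fc W 0‖ ^ 2))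
  have h7 : ∀ k, ‖fc W k‖ ^ 2 ≤ (1 / (2 * Real.pi ^ 2)) ^ 2 * ‖fc (a + s) k‖ ^ 2 +
      (if k = 0 then ‖fc W 0‖ ^ 2 else 0) := by
    intro k
    by_cases hk : k = 0
    · subst hk
      rw [if_pos rfl]
      have e3 : 0 ≤ (1 / (2 * Real.pi ^ 2)) ^ 2 * ‖fc (a + s) 0‖ ^ 2 := by positivity
      linarith
    · rw [if_neg hk, add_zero, ← mul_pow]
      apply pow_le_pow_left₀ (norm_nonneg _)
      have := hW1 k hk
      rwa [div_eq_mul_one_div, mul_comm] at this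
  have h8 := hasSum_le h7 (hasSum_fc_sq W) h6
  -- conclusion
  have h9 : ε ^ 2 * ‖fc W 0‖ ^ 2 = 4 * ‖fc s 0‖ ^ 2 := by
    rw [hns0]
    ring
  have h10 : 4 * ‖fc s 0‖ ^ 2 ≤ ε * ((‖a‖ + 1) ^ 2 / Real.pi ^ 2) := by
    have e1 : 4 * ‖fc s 0‖ ^ 2 = 2 * ε * (2 / ε * ‖fc s 0‖ ^ 2) := by
      field_simp
      ring
    rw [e1]
    calc 2 * ε * (2 / ε * ‖fc s 0‖ ^ 2) ≤
        2 * ε * (1 / (4 * Real.pi ^ 2) * (2 * (‖a‖ + 1) ^ 2)) :=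
          mul_le_mul_of_nonneg_left h5 (by positivity)
      _ = ε * ((‖a‖ + 1) ^ 2 / Real.pi ^ 2) := by
          field_simp
          ring
  have h11 : ε ^ 2 * ((1 / (2 * Real.pi ^ 2)) ^ 2 * ‖a + s‖ ^ 2) ≤
      ε * ((1 / (2 * Real.pi ^ 2)) ^ 2 * (‖a‖ + 1) ^ 2) := by
    have e1 : ε ^ 2 ≤ ε := by nlinarith
    have e2 : (1 / (2 * Real.pi ^ 2)) ^ 2 * ‖a + s‖ ^ 2 ≤
        (1 / (2 * Real.pi ^ 2)) ^ 2 * (‖a‖ + 1) ^ 2 :=
      mul_le_mul_of_nonneg_left hasn2 (by positivity)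
    exact mul_le_mul e1 e2 (by positivity) hε.le
  have h12 : ε ^ 2 * ‖W‖ ^ 2 ≤ ε * ((1 / (2 * Real.pi ^ 2)) ^ 2 * (‖a‖ + 1) ^ 2) +
      ε * ((‖a‖ + 1) ^ 2 / Real.pi ^ 2) := by
    have e1 := mul_le_mul_of_nonneg_left h8 (sq_nonneg ε)
    rw [mul_add, h9] at e1
    linarith
  have h13 : (1 / (2 * Real.pi ^ 2)) ^ 2 * (‖a‖ + 1) ^ 2 + (‖a‖ + 1) ^ 2 / Real.pi ^ 2 ≤
      (‖a‖ + 1) ^ 2 := by
    have e1 : 1 / (2 * Real.pi ^ 2) ≤ 1 / 18 := by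
      apply one_div_le_one_div_of_le (by norm_num)
      linarith
    have e2 : (1 / (2 * Real.pi ^ 2)) ^ 2 ≤ (1 / 18) ^ 2 :=
      pow_le_pow_left₀ (by positivity) e1 2
    have e3 : (‖a‖ + 1) ^ 2 / Real.pi ^ 2 ≤ (‖a‖ + 1) ^ 2 / 9 :=
      div_le_div_of_nonneg_left (by positivity) (by norm_num) hpi2.le
    have e4 : 0 ≤ (‖a‖ + 1) ^ 2 := by positivity
    nlinarith
  calc ε ^ 2 * ‖W‖ ^ 2 ≤ ε * ((1 / (2 * Real.pi ^ 2)) ^ 2 * (‖a‖ + 1) ^ 2) +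
      ε * ((‖a‖ + 1) ^ 2 / Real.pi ^ 2) := h12
    _ = ε * ((1 / (2 * Real.pi ^ 2)) ^ 2 * (‖a‖ + 1) ^ 2 + (‖a‖ + 1) ^ 2 / Real.pi ^ 2) := by ring
    _ ≤ ε * (‖a‖ + 1) ^ 2 := mul_le_mul_of_nonneg_left h13 hε.le

end Pool.Agent.Helper7.SV
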