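import Pool.Agent.Helper7.SV.F

/-!
# SV-T: translations of `H`

* `tr_coe`: `Lp.coeFn_compMeasurePreserving`.
* `fc_tr`: change of variables `x ↦ x + u` in `mFourierCoeff (tr u v) k = ∫ mFourier (-k) x • (tr u v) x`
  (`integral_add_right_eq_self`), and `mFourier (-k) (x - u) = mFourier (-k) x * mFourier k u`.
* `mFourier_pt`: `mFourier k x = ∏ fourier (k i) (x i)`, `fourier_coe_apply`.
* `tr_tendsto`: `tendsto_fc` with `g k = ‖fc W k‖` (`‖mFourier k u‖ = 1` at every point).
-/

set_option autoImplicit false

noncomputable section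

open scoped ComplexConjugate Topology
open MeasureTheory UnitAddTorus Filter

namespace Pool.Agent.Helper7.SV

theorem tr_coe (u : X) (v : H) : (tr u v : X → ℂ) =ᵐ[volume] fun x => v (x + u) :=
  Lp.coeFn_compMeasurePreserving v (measurePreserving_add_right volume u)

theorem norm_mFourier_apply (k : Ix) (u : X) : ‖mFourier k u‖ = 1 := by
  simp only [mFourier, fourier_apply, ContinuousMap.coe_mk, norm_prod, Circle.norm_coe,
    Finset.prod_const_one]

theorem mFourier_add_apply (k : Ix) (x y : X) :
    mFourier k (x + y) = mFourier k x * mFourier k y := by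
  simp only [mFourier, fourier_apply, ContinuousMap.coe_mk, Pi.add_apply, smul_add,
    AddCircle.toCircle_add, Circle.coe_mul, Finset.prod_mul_distrib]

theorem fc_tr (u : X) (v : H) (k : Ix) : fc (tr u v) k = mFourier k u * fc v k := by
  unfold fc mFourierCoeff
  have h1 : ∫ t, mFourier (-k) t • (tr u v : X → ℂ) t = ∫ t, mFourier (-k) t • v (t + u) := by
    apply integral_congr_ae
    filter_upwards [tr_coe u v] with x hx
    rw [hx]
  have h2 : ∫ t, mFourier (-k) t • v (t + u) =
      ∫ t : X, (fun y => mFourier (-k) (y - u) • v y) (t + u) := by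
    congr 1
    funext t
    simp
  have h0 : ∫ t : X, (fun y => mFourier (-k) (y - u) • v y) (t + u) =
      ∫ t : X, (fun y => mFourier (-k) (y - u) • v y) t :=
    integral_add_right_eq_self (μ := (volume : Measure X))
      (fun y => mFourier (-k) (y - u) • v y) u
  rw [h1, h2, h0, ← integral_const_mul]
  congr 1
  funext y
  have h3 : mFourier (-k) (y - u) = mFourier k u * mFourier (-k) y := by
    have h4 : mFourier (-k) y = mFourier (-k) (y - u) * mFourier (-k) u := by
      rw [← mFourier_add_apply, sub_add_cancel]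
    rw [h4]
    have h5 : mFourier k u * mFourier (-k) u = 1 := by
      rw [← mFourier_add, add_neg_cancel, mFourier_zero]
      rfl
    calc mFourier (-k) (y - u) = mFourier (-k) (y - u) * (mFourier k u * mFourier (-k) u) := by
          rw [h5, mul_one]
      _ = _ := by ring
  simp only [smul_eq_mul]
  rw [h3]
  ring

theorem mFourier_pt (k n : Ix) (h : ℝ) :
    mFourier k (pt n h) = Complex.exp (((2 * Real.pi * (h * dt n k) : ℝ) : ℂ) * Complex.I) := by
  simp only [mFourier, ContinuousMap.coe_mk, pt, Fin.prod_univ_two]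
  rw [fourier_coe_apply, fourier_coe_apply, ← Complex.exp_add]
  congr 1
  simp only [dt]
  push_cast
  ring

theorem tr_tendsto (n : Ix) (W : H) : Tendsto (fun h : ℝ => tr (pt n h) W) (𝓝 0) (𝓝 W) := by
  apply tendsto_fc (fun h : ℝ => tr (pt n h) W) W (fun k => ‖fc W k‖)
  · exact (hasSum_fc_sq W).summable
  · refine Filter.Eventually.of_forall fun h k => ?_
    rw [fc_tr, norm_mul, norm_mFourier_apply, one_mul]
  · intro k
    simp only [fc_tr, mFourier_pt]
    have hc : Continuous fun h : ℝ =>
        Complex.exp (((2 * Real.pi * (h * dt n k) : ℝ) : ℂ) * Complex.I) * fc W k := by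
      fun_prop
    have := hc.tendsto 0
    simpa using this

theorem pt_neg (n : Ix) (h : ℝ) : pt n (-h) = -pt n h := by
  funext i
  simp [pt]

end Pool.Agent.Helper7.SV
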