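import Pool.Agent.Helper7.SV.K
import Pool.Agent.Helper7.SV.D

/-!
# SV-V: the flux inequality `Re ⟪s, ½ΔW⟫ ≤ 0`

For a direction `n` and `h ≠ 0`, `s' = ½(tr (pt n h) s + tr (pt n (-h)) s) ∈ KK` (convexity), and
`s' - s = (h²/2) • sd n h s`.  So `Re ⟪W, sd n h s⟫ ≤ 0`; `⟪W, sd n h s⟫ = ⟪sd n h W, s⟫` (the factor of
`sd` on coefficients is real), so `Re ⟪sd n h W, s⟫ ≤ 0`; `h → 0` with `sd_tendsto`: `Re ⟪V_n, s⟫ ≤ 0`.
`M = ½(V_{e1} + V_{e2})` with `e1 = ![1,0]`, `e2 = ![0,1]` (existence of `V` by `exists_fc`, comparison with `M`).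
-/

set_option autoImplicit false

noncomputable section

open scoped ComplexConjugate Topology
open MeasureTheory UnitAddTorus Filter

namespace Pool.Agent.Helper7.SV

private theorem inner_sd_77 (n : Ix) (h : ℝ) (W s : H) :
    inner ℂ W (sd n h s) = inner ℂ (sd n h W) s := by
  have h1 := hasSum_fc W (sd n h s)
  have h2 := hasSum_fc (sd n h W) s
  refine h1.unique ?_
  refine h2.congr_fun ?_
  intro k
  rw [fc_sd, fc_sd, map_mul, Complex.conj_ofReal]
  ring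

private theorem dir_77 {W s : H} (hs : s ∈ KK) (h : ∀ s' ∈ KK, (inner ℂ W (s' - s)).re ≤ 0)
    (n : Ix) (t : ℝ) (ht : t ≠ 0) : (inner ℂ (sd n t W) s).re ≤ 0 := by
  rw [← inner_sd_77]
  have hmem : (1 / 2 : ℝ) • tr (pt n t) s + (1 / 2 : ℝ) • tr (pt n (-t)) s ∈ KK :=
    KK_convex (KK_tr hs _) (KK_tr hs _) (by norm_num) (by norm_num) (by norm_num)
  have h1 := h _ hmem
  have e : (1 / 2 : ℝ) • tr (pt n t) s + (1 / 2 : ℝ) • tr (pt n (-t)) s - s
      = ((t ^ 2 / 2 : ℝ) : ℂ) • sd n t s := by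
    apply fc_ext
    intro k
    have r1 : ∀ v : H, (1 / 2 : ℝ) • v = ((1 / 2 : ℝ) : ℂ) • v := fun v =>
      (algebraMap_smul ℂ (1 / 2 : ℝ) v).symm
    rw [sd, r1, r1]
    simp only [fc_sub, fc_add, fc_smul]
    have htc : (t : ℂ) ≠ 0 := by exact_mod_cast ht
    push_cast
    field_simp
  rw [e, inner_smul_right, Complex.re_ofReal_mul] at h1
  have ht2 : 0 < t ^ 2 / 2 := by positivity
  exact nonpos_of_mul_nonpos_right h1 ht2

private theorem lim_77 {W s : H} (hs : s ∈ KK) (h : ∀ s' ∈ KK, (inner ℂ W (s' - s)).re ≤ 0)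
    (n : Ix) (V : H) (hV : ∀ k, fc V k = ((-(4 * Real.pi ^ 2 * dt n k ^ 2) : ℝ) : ℂ) * fc W k) :
    (inner ℂ V s).re ≤ 0 := by
  have h1 := sd_tendsto n W V hV
  have h2 : Tendsto (fun t : ℝ => (inner ℂ (sd n t W) s).re) (𝓝[≠] 0) (𝓝 (inner ℂ V s).re) :=
    (Complex.continuous_re.tendsto _).comp (h1.inner tendsto_const_nhds)
  refine le_of_tendsto h2 ?_
  filter_upwards [self_mem_nhdsWithin] with t ht
  exact dir_77 hs h n t ht

theorem flux {W s M : H} (hs : s ∈ KK) (h : ∀ s' ∈ KK, (inner ℂ W (s' - s)).re ≤ 0)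
    (hM : ∀ k, fc M k = ((-(2 * Real.pi ^ 2 * qq k) : ℝ) : ℂ) * fc W k) :
    (inner ℂ s M).re ≤ 0 := by
  have key : ∀ n : Ix, (∀ k, dt n k ^ 2 ≤ qq k) →
      ∃ V : H, ∀ k, fc V k = ((-(4 * Real.pi ^ 2 * dt n k ^ 2) : ℝ) : ℂ) * fc W k := by
    intro n hn
    refine exists_fc _ M 2 ?_
    intro k
    rw [hM k, norm_mul, norm_mul, Complex.norm_real, Complex.norm_real, Real.norm_eq_abs,
      Real.norm_eq_abs, abs_neg, abs_neg, abs_of_nonneg (by positivity),
      abs_of_nonneg (by have : 0 ≤ qq k := by { unfold qq; positivity }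
                        positivity), ← mul_assoc]
    have h2 := hn k
    have h3 : 0 ≤ Real.pi ^ 2 := by positivity
    refine mul_le_mul_of_nonneg_right ?_ (norm_nonneg _)
    nlinarith
  obtain ⟨V1, hV1⟩ := key ![1, 0] (fun k => by
    simp only [dt, qq, Matrix.cons_val_zero, Matrix.cons_val_one, Int.cast_one, Int.cast_zero]
    nlinarith [sq_nonneg (k 1 : ℝ)])
  obtain ⟨V2, hV2⟩ := key ![0, 1] (fun k => by
    simp only [dt, qq, Matrix.cons_val_zero, Matrix.cons_val_one, Int.cast_one, Int.cast_zero]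
    nlinarith [sq_nonneg (k 0 : ℝ)])
  have e : M = ((1 / 2 : ℝ) : ℂ) • (V1 + V2) := by
    apply fc_ext
    intro k
    rw [fc_smul, fc_add, hM k, hV1 k, hV2 k]
    simp only [dt, qq, Matrix.cons_val_zero, Matrix.cons_val_one, Int.cast_one, Int.cast_zero]
    push_cast
    ring
  have h1 := lim_77 hs h _ V1 hV1
  have h2 := lim_77 hs h _ V2 hV2
  rw [← inner_conj_symm, Complex.conj_re, e, inner_smul_left, inner_add_left, Complex.conj_ofReal,
    Complex.re_ofReal_mul, Complex.add_re]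
  linarith

end Pool.Agent.Helper7.SV
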