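import Pool.Agent.Helper7.CT.W2
import Pool.Agent.Helper7.CT.W0

/-!
# SV-W3: cutting off a map with derivatives in `L^p`

`f' z = χ (z/R) (f z - c)`, with `c` from `poincare_annulus` (same argument as CT/W3.lean, by helper47, without
the symmetry condition).
-/

set_option autoImplicit false

open MeasureTheory Metric Set Complex

namespace Pool.Agent.Helper7.SV

open Pool.Agent.Helper7.BU Pool.Agent.Helper7.CT

theorem exists_bump' : ∃ (χ : ℂ → ℝ) (C : ℝ), ContDiff ℝ 1 χ ∧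
    0 ≤ C ∧ (∀ z, |χ z - 1| ≤ 1) ∧ (∀ z, ‖z‖ ≤ 1 → χ z = 1 ∧ fderiv ℝ χ z = 0) ∧
    (∀ z, 2 ≤ ‖z‖ → χ z = 0 ∧ fderiv ℝ χ z = 0) ∧ ∀ z, ‖fderiv ℝ χ z‖ ≤ C := by
  let b : ContDiffBump (0 : ℂ) := ⟨5 / 4, 7 / 4, by norm_num, by norm_num⟩
  have h1 : ContDiff ℝ 1 b := b.contDiff
  have hb1 : ∀ z : ℂ, ‖z‖ < 5 / 4 → b z = 1 := by
    intro z hz
    apply b.one_of_mem_closedBall
    rw [mem_closedBall, dist_zero_right]
    exact hz.le
  have hb2 : ∀ z : ℂ, 7 / 4 < ‖z‖ → b z = 0 := by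
    intro z hz
    apply b.zero_of_le_dist
    rw [dist_zero_right]
    exact hz.le
  have o1 : IsOpen {z : ℂ | ‖z‖ < 5 / 4} := isOpen_lt continuous_norm continuous_const
  have o2 : IsOpen {z : ℂ | 7 / 4 < ‖z‖} := isOpen_lt continuous_const continuous_norm
  have hd1 : ∀ z : ℂ, ‖z‖ < 5 / 4 → fderiv ℝ b z = 0 := by
    intro z hz
    have h2 : (b : ℂ → ℝ) =ᶠ[nhds z] fun _ => 1 := by
      filter_upwards [o1.mem_nhds hz] with w hw
      exact hb1 w hw
    rw [h2.fderiv_eq]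
    simp
  have hd2 : ∀ z : ℂ, 7 / 4 < ‖z‖ → fderiv ℝ b z = 0 := by
    intro z hz
    have h2 : (b : ℂ → ℝ) =ᶠ[nhds z] fun _ => 0 := by
      filter_upwards [o2.mem_nhds hz] with w hw
      exact hb2 w hw
    rw [h2.fderiv_eq]
    simp
  have hgs : HasCompactSupport b := b.hasCompactSupport
  obtain ⟨C2, hC2⟩ := (hgs.fderiv (𝕜 := ℝ)).exists_bound_of_continuous
    (h1.continuous_fderiv one_ne_zero)
  refine ⟨b, C2, h1, ?_, ?_, ?_, ?_, hC2⟩
  · exact (norm_nonneg _).trans (hC2 0)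
  · intro z
    have h2 : 0 ≤ b z := b.nonneg
    have h3 : b z ≤ 1 := b.le_one
    rw [abs_le]
    constructor <;> linarith
  · exact fun z hz => ⟨hb1 z (by linarith), hd1 z (by linarith)⟩
  · exact fun z hz => ⟨hb2 z (by linarith), hd2 z (by linarith)⟩

theorem two_pow {p a b : ℝ} (hp : 1 ≤ p) (ha : 0 ≤ a) (hb : 0 ≤ b) :
    (a + b) ^ p ≤ 2 ^ p * (a ^ p + b ^ p) := by
  have hp0 : 0 ≤ p := by linarith
  have ha' := Real.rpow_nonneg ha p
  have hb' := Real.rpow_nonneg hb p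
  have h3 : (0 : ℝ) ≤ 2 ^ p := by positivity
  have key : ∀ m : ℝ, 0 ≤ m → a ≤ m → b ≤ m → (a + b) ^ p ≤ 2 ^ p * m ^ p := by
    intro m hm h1 h2
    rw [← Real.mul_rpow (by norm_num) hm]
    exact Real.rpow_le_rpow (by positivity) (by linarith) hp0
  rcases le_total a b with h1 | h1
  · exact (key b hb h1 le_rfl).trans (mul_le_mul_of_nonneg_left (by linarith) h3)
  · exact (key a ha le_rfl h1).trans (mul_le_mul_of_nonneg_left (by linarith) h3)

/-- the annulus -/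
def Ann (R : ℝ) : Set ℂ := {z : ℂ | R < ‖z‖ ∧ ‖z‖ < 2 * R}

theorem Ann_meas (R : ℝ) : MeasurableSet (Ann R) := by
  have h1 : IsOpen {z : ℂ | R < ‖z‖} := isOpen_lt continuous_const continuous_norm
  have h2 : IsOpen {z : ℂ | ‖z‖ < 2 * R} := isOpen_lt continuous_norm continuous_const
  exact (h1.inter h2).measurableSet

theorem Ann_int {G : ℂ → ℝ} (hG : Continuous G) (R : ℝ) : IntegrableOn G (Ann R) := by
  refine (hG.continuousOn.integrableOn_compact (isCompact_closedBall (0 : ℂ) (2 * R))).mono_set ?_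
  rintro z ⟨_, h2⟩
  rw [mem_closedBall, dist_zero_right]
  exact h2.le

theorem cutoff_all {p : ℝ} (hp : 1 ≤ p) {f : ℂ → ℂ} (hf : ContDiff ℝ 1 f)
    (hL : MemLp (fun z => fderiv ℝ f z) (ENNReal.ofReal p)) {ε : ℝ} (hε : 0 < ε) :
    ∃ f' : ℂ → ℂ, ContDiff ℝ 1 f' ∧ HasCompactSupport f' ∧
      eLpNorm (fun z => fderiv ℝ f' z - fderiv ℝ f z) (ENNReal.ofReal p) ≤ ENNReal.ofReal ε := by
  have hp0 : 0 < p := by linarith
  obtain ⟨χ, C₁, hχ, hC0, hχ1, hin, hout, hgC⟩ := exists_bump'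
  obtain ⟨C, hC, hP⟩ := poincare_annulus hp
  have hfc : Continuous (fderiv ℝ f) := hf.continuous_fderiv one_ne_zero
  -- the tail
  have hI : Integrable fun z => ‖fderiv ℝ f z‖ ^ p := by
    have h1 := hL.integrable_norm_rpow (by simpa using hp0) ENNReal.ofReal_ne_top
    rwa [ENNReal.toReal_ofReal hp0.le] at h1
  obtain ⟨K, hK⟩ : ∃ K : ℝ, K = 2 ^ p * (1 + C₁ ^ p * C) := ⟨_, rfl⟩
  have hK0 : 0 ≤ K := by rw [hK]; positivity
  have htail : Filter.Tendsto (fun n : ℕ => K * ∫ z in {z : ℂ | (n : ℝ) < ‖z‖}, ‖fderiv ℝ f z‖ ^ p)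
      Filter.atTop (nhds 0) := by
    have h1 := tendsto_setIntegral_of_antitone (μ := volume)
      (f := fun z => ‖fderiv ℝ f z‖ ^ p) (s := fun n : ℕ => {z : ℂ | (n : ℝ) < ‖z‖})
      (fun n => (isOpen_lt continuous_const continuous_norm).measurableSet)
      (fun m n hmn z hz => by
        have h2 : (m : ℝ) ≤ n := by exact_mod_cast hmn
        exact lt_of_le_of_lt h2 hz) ⟨0, hI.integrableOn⟩
    have h2 : ⋂ n : ℕ, {z : ℂ | (n : ℝ) < ‖z‖} = ∅ := by
      rw [eq_empty_iff_forall_notMem]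
      intro z hz
      obtain ⟨n, hn⟩ := exists_nat_gt ‖z‖
      have h3 : (n : ℝ) < ‖z‖ := mem_iInter.1 hz n
      linarith
    rw [h2, setIntegral_empty] at h1
    simpa using h1.const_mul K
  obtain ⟨N, hN⟩ := Filter.eventually_atTop.1 (htail.eventually (ge_mem_nhds
    (show (0 : ℝ) < ε ^ p by positivity)))
  have hN1 := hN (N + 1) (Nat.le_succ N)
  obtain ⟨R, hR⟩ : ∃ R : ℝ, R = ((N + 1 : ℕ) : ℝ) := ⟨_, rfl⟩
  have hR0 : 0 < R := by rw [hR]; positivity
  rw [← hR] at hN1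
  obtain ⟨s, hs⟩ : ∃ s : ℝ, s = R⁻¹ := ⟨_, rfl⟩
  have hs0 : 0 < s := by rw [hs]; positivity
  have hsR : s * R = 1 := by rw [hs]; exact inv_mul_cancel₀ hR0.ne'
  obtain ⟨c, hc1⟩ := hP R hR0 f hf
  have hf1 : ContDiff ℝ 1 fun z => f z - c := hf.sub contDiff_const
  have hdf : ∀ z, fderiv ℝ (fun z => f z - c) z = fderiv ℝ f z := fun z => fderiv_sub_const c
  have hnorm : ∀ z : ℂ, ‖s • z‖ = s * ‖z‖ := fun z => by
    rw [norm_smul, Real.norm_eq_abs, abs_of_pos hs0]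
  have hsmall : ∀ z : ℂ, ‖z‖ ≤ R → ‖s • z‖ ≤ 1 := fun z hz => by
    rw [hnorm, ← hsR]
    exact mul_le_mul_of_nonneg_left hz hs0.le
  have hlarge : ∀ z : ℂ, 2 * R ≤ ‖z‖ → 2 ≤ ‖s • z‖ := fun z hz => by
    rw [hnorm]
    have h1 := mul_le_mul_of_nonneg_left hz hs0.le
    have h2 : s * (2 * R) = 2 * (s * R) := by ring
    rw [h2, hsR] at h1
    linarith
  have hχs : ContDiff ℝ 1 fun z : ℂ => χ (s • z) := hχ.comp (contDiff_const_smul s)
  have hh1 : ContDiff ℝ 1 fun z : ℂ => χ (s • z) • (f z - c) := hχs.smul hf1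
  refine ⟨fun z => χ (s • z) • (f z - c), hh1, ?_, ?_⟩
  · refine HasCompactSupport.intro (isCompact_closedBall (0 : ℂ) (2 * R)) fun z hz => ?_
    rw [mem_closedBall, dist_zero_right, not_le] at hz
    obtain ⟨h1, -⟩ := hout _ (hlarge z hz.le)
    rw [h1, zero_smul]
  · set h : ℂ → ℂ := fun z => χ (s • z) • (f z - c) with hh
    have hder : ∀ z, fderiv ℝ h z - fderiv ℝ f z = (χ (s • z) - 1) • fderiv ℝ f z +
        (s • fderiv ℝ χ (s • z)).smulRight (f z - c) := by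
      intro z
      have e1 : HasFDerivAt (fun z : ℂ => s • z) (s • ContinuousLinearMap.id ℝ ℂ) z :=
        (hasFDerivAt_id z).const_smul s
      have e2 : HasFDerivAt (fun z : ℂ => χ (s • z)) ((fderiv ℝ χ (s • z)).comp
          (s • ContinuousLinearMap.id ℝ ℂ)) z :=
        ((hχ.differentiable one_ne_zero _).hasFDerivAt).comp z e1
      have e3 : HasFDerivAt (fun z => f z - c) (fderiv ℝ f z) z :=
        ((hf.differentiable one_ne_zero z).hasFDerivAt).sub_const c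
      have e4 := e2.smul e3
      have e5 : fderiv ℝ h z = _ := e4.fderiv
      rw [e5]
      ext v
      simp
      ring
    -- pointwise bounds
    have b0 : ∀ z, ‖fderiv ℝ h z - fderiv ℝ f z‖ ≤ |χ (s • z) - 1| * ‖fderiv ℝ f z‖ +
        s * ‖fderiv ℝ χ (s • z)‖ * ‖f z - c‖ := by
      intro z
      rw [hder z]
      refine (norm_add_le _ _).trans ?_
      rw [norm_smul, Real.norm_eq_abs, ContinuousLinearMap.norm_smulRight_apply, norm_smul,
        Real.norm_eq_abs, abs_of_pos hs0]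
    have b1 : ∀ z, ‖z‖ ≤ R → ‖fderiv ℝ h z - fderiv ℝ f z‖ = 0 := by
      intro z hz
      obtain ⟨h1, h2⟩ := hin _ (hsmall z hz)
      have h4 := b0 z
      rw [h1, h2] at h4
      simp only [sub_self, abs_zero, zero_mul, norm_zero, mul_zero, add_zero] at h4
      exact le_antisymm h4 (norm_nonneg _)
    have b2 : ∀ z, 2 * R ≤ ‖z‖ → ‖fderiv ℝ h z - fderiv ℝ f z‖ ≤ ‖fderiv ℝ f z‖ := by
      intro z hz
      obtain ⟨h1, h2⟩ := hout _ (hlarge z hz)
      have h4 := b0 z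
      rw [h1, h2] at h4
      simpa using h4
    have b3 : ∀ z, ‖fderiv ℝ h z - fderiv ℝ f z‖ ≤ ‖fderiv ℝ f z‖ +
        (C₁ * s) * ‖f z - c‖ := by
      intro z
      have h1 := b0 z
      have h5 : |χ (s • z) - 1| * ‖fderiv ℝ f z‖ ≤ 1 * ‖fderiv ℝ f z‖ :=
        mul_le_mul_of_nonneg_right (hχ1 _) (norm_nonneg _)
      have h6 : s * ‖fderiv ℝ χ (s • z)‖ * ‖f z - c‖ ≤ s * C₁ * ‖f z - c‖ :=
        mul_le_mul_of_nonneg_right (mul_le_mul_of_nonneg_left (hgC _) hs0.le) (norm_nonneg _)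
      nlinarith
    -- the majorant
    obtain ⟨α, hα⟩ : ∃ α : ℝ, α = (C₁ * s) ^ p := ⟨_, rfl⟩
    have hα0 : 0 ≤ α := by rw [hα]; positivity
    have h3p : (1 : ℝ) ≤ 2 ^ p := Real.one_le_rpow (by norm_num) hp0.le
    have hB : MeasurableSet {z : ℂ | R < ‖z‖} :=
      (isOpen_lt continuous_const continuous_norm).measurableSet
    have cf : Continuous fun z => ‖f z - c‖ ^ p :=
      (hf1.continuous.norm).rpow_const fun z => Or.inr hp0.le
    have cG : Continuous fun z => α * ‖f z - c‖ ^ p := continuous_const.mul cf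
    set G : ℂ → ℝ := fun z => 2 ^ p * ({z : ℂ | R < ‖z‖}.indicator (fun z => ‖fderiv ℝ f z‖ ^ p) z +
      (Ann R).indicator (fun z => α * ‖f z - c‖ ^ p) z) with hG
    have i1 : Integrable ({z : ℂ | R < ‖z‖}.indicator (fun z => ‖fderiv ℝ f z‖ ^ p)) :=
      hI.indicator hB
    have i2 : Integrable ((Ann R).indicator (fun z => α * ‖f z - c‖ ^ p)) :=
      (integrable_indicator_iff (Ann_meas R)).2 (Ann_int cG R)
    have iG : Integrable G := (i1.add i2).const_mul (2 ^ p)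
    have hG0 : ∀ z, 0 ≤ G z := by
      intro z
      rw [hG]
      apply mul_nonneg (by positivity)
      apply add_nonneg
      · exact indicator_nonneg (fun z _ => by positivity) z
      · exact indicator_nonneg (fun z _ => by positivity) z
    have hle : ∀ z, ‖fderiv ℝ h z - fderiv ℝ f z‖ ^ p ≤ G z := by
      intro z
      by_cases h1 : ‖z‖ ≤ R
      · rw [b1 z h1, Real.zero_rpow hp0.ne']
        exact hG0 z
      · rw [not_le] at h1
        have m1 : z ∈ {z : ℂ | R < ‖z‖} := h1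
        simp only [hG]
        rw [indicator_of_mem m1]
        by_cases h2 : ‖z‖ < 2 * R
        · have m2 : z ∈ Ann R := ⟨h1, h2⟩
          rw [indicator_of_mem m2]
          have h3 : ‖fderiv ℝ h z - fderiv ℝ f z‖ ^ p ≤ (‖fderiv ℝ f z‖ +
            (C₁ * s) * ‖f z - c‖) ^ p :=
            Real.rpow_le_rpow (norm_nonneg _) (b3 z) hp0.le
          have h4 := two_pow hp (norm_nonneg (fderiv ℝ f z))
            (show 0 ≤ (C₁ * s) * ‖f z - c‖ by positivity)
          rw [Real.mul_rpow (show 0 ≤ C₁ * s by positivity) (norm_nonneg _), ← hα] at h4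
          exact h3.trans h4
        · rw [not_lt] at h2
          have m2 : z ∉ Ann R := fun h3 => absurd h3.2 (not_lt.2 h2)
          rw [indicator_of_notMem m2, add_zero]
          have h3 : ‖fderiv ℝ h z - fderiv ℝ f z‖ ^ p ≤ ‖fderiv ℝ f z‖ ^ p :=
            Real.rpow_le_rpow (norm_nonneg _) (b2 z h2) hp0.le
          have h4 : 0 ≤ ‖fderiv ℝ f z‖ ^ p := by positivity
          nlinarith
    -- the integral of the majorant
    have hA_le : ∫ z in Ann R, ‖fderiv ℝ f z‖ ^ p ≤ ∫ z in {z : ℂ | R < ‖z‖}, ‖fderiv ℝ f z‖ ^ p := by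
      apply setIntegral_mono_set hI.integrableOn
      · exact Filter.Eventually.of_forall fun z => by positivity
      · exact Filter.Eventually.of_forall fun z hz => hz.1
    have hRp : 0 < R ^ p := by positivity
    have hsRp : s ^ p * R ^ p = 1 := by
      rw [← Real.mul_rpow hs0.le hR0.le, hsR, Real.one_rpow]
    have hα1 : α * (C * R ^ p) = C₁ ^ p * C := by
      rw [hα, Real.mul_rpow (by positivity) hs0.le]
      calc C₁ ^ p * s ^ p * (C * R ^ p) = C₁ ^ p * C * (s ^ p * R ^ p) := by ring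
        _ = _ := by rw [hsRp, mul_one]
    have hintG : ∫ z, G z ≤ K * ∫ z in {z : ℂ | R < ‖z‖}, ‖fderiv ℝ f z‖ ^ p := by
      have e1 : ∫ z, G z = 2 ^ p * ((∫ z in {z : ℂ | R < ‖z‖}, ‖fderiv ℝ f z‖ ^ p) +
          α * (∫ z in Ann R, ‖f z - c‖ ^ p)) := by
        rw [hG, integral_const_mul, integral_add i1 i2, integral_indicator hB,
          integral_indicator (Ann_meas R), integral_const_mul]
      rw [e1, hK]
      have hc1' : ∫ z in Ann R, ‖f z - c‖ ^ p ≤ C * R ^ p * ∫ z in Ann R, ‖fderiv ℝ f z‖ ^ p := hc1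
      have e2 := mul_le_mul_of_nonneg_left hc1' hα0
      have e4 : α * (C * R ^ p * ∫ z in Ann R, ‖fderiv ℝ f z‖ ^ p) =
          C₁ ^ p * C * ∫ z in Ann R, ‖fderiv ℝ f z‖ ^ p := by
        rw [← mul_assoc, hα1]
      rw [e4] at e2
      have e6 : C₁ ^ p * C * (∫ z in Ann R, ‖fderiv ℝ f z‖ ^ p) ≤
          C₁ ^ p * C * ∫ z in {z : ℂ | R < ‖z‖}, ‖fderiv ℝ f z‖ ^ p :=
        mul_le_mul_of_nonneg_left hA_le (by positivity)
      rw [mul_assoc]
      apply mul_le_mul_of_nonneg_left _ (by positivity)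
      linarith
    have hfin : ∫ z, G z ≤ ε ^ p := hintG.trans hN1
    -- conclusion
    rw [eLpNorm_eq_lintegral_rpow_enorm_toReal (by simpa using hp0) ENNReal.ofReal_ne_top,
      ENNReal.toReal_ofReal hp0.le]
    have hl : ∫⁻ z, ‖fderiv ℝ h z - fderiv ℝ f z‖ₑ ^ p ≤ ENNReal.ofReal ε ^ p := by
      calc ∫⁻ z, ‖fderiv ℝ h z - fderiv ℝ f z‖ₑ ^ p ≤ ∫⁻ z, ENNReal.ofReal (G z) := by
            apply lintegral_mono
            intro z
            simp only
            rw [← ofReal_norm, ENNReal.ofReal_rpow_of_nonneg (norm_nonneg _) hp0.le]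
            exact ENNReal.ofReal_le_ofReal (hle z)
        _ = ENNReal.ofReal (∫ z, G z) :=
            (ofReal_integral_eq_lintegral_ofReal iG (Filter.Eventually.of_forall hG0)).symm
        _ ≤ ENNReal.ofReal (ε ^ p) := ENNReal.ofReal_le_ofReal hfin
        _ = ENNReal.ofReal ε ^ p := (ENNReal.ofReal_rpow_of_nonneg hε.le hp0.le).symm
    calc (∫⁻ z, ‖fderiv ℝ h z - fderiv ℝ f z‖ₑ ^ p) ^ (1 / p) ≤
        (ENNReal.ofReal ε ^ p) ^ (1 / p) := ENNReal.rpow_le_rpow hl (by positivity)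
      _ = ENNReal.ofReal ε := by
          rw [← ENNReal.rpow_mul, mul_one_div_cancel hp0.ne', ENNReal.rpow_one]

end Pool.Agent.Helper7.SV
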