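import Pool.Agent.Helper7.SV.B
import Pool.Agent.Helper7.SV.W3
import Pool.Agent.Helper7.CT.W4

/-!
# SV-W5: the Burkholder functional on the homogeneous Sobolev space of the plane

Same argument as CT/W5.lean (by helper37), without the symmetry condition: mollification, cut-off, continuity of the
functional in `L^p`.
-/

set_option autoImplicit false

open MeasureTheory Metric Set Complex Filter Topology
open scoped ComplexConjugate

namespace Pool.Agent.Helper7.SV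

open Pool.Agent.Helper7.BU Pool.Agent.Helper7.CT

theorem opNormW (A : ℂ →L[ℝ] ℂ) : ‖A‖ ≤ ‖A 1‖ + ‖A I‖ := by
  refine A.opNorm_le_bound (by positivity) fun z => ?_
  have h1 : A z = z.re • A 1 + z.im • A I := by
    conv_lhs => rw [← Complex.re_add_im z]
    have h2 : ((z.re : ℂ) + (z.im : ℂ) * I) = z.re • (1 : ℂ) + z.im • I := by
      rw [Complex.real_smul, Complex.real_smul, mul_one]
    rw [h2, map_add, map_smul, map_smul]
  rw [h1]
  calc ‖z.re • A 1 + z.im • A I‖ ≤ ‖z.re • A 1‖ + ‖z.im • A I‖ := norm_add_le _ _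
    _ = |z.re| * ‖A 1‖ + |z.im| * ‖A I‖ := by rw [norm_smul, norm_smul]; rfl
    _ ≤ ‖z‖ * ‖A 1‖ + ‖z‖ * ‖A I‖ := by
        gcongr
        · exact Complex.abs_re_le_norm z
        · exact Complex.abs_im_le_norm z
    _ = (‖A 1‖ + ‖A I‖) * ‖z‖ := by ring

/-- Approximation of a map with derivatives in `L^p` by compactly supported ones. -/
theorem approxW {p : ℝ} (hp : 1 ≤ p) {f fx fy : ℂ → ℂ}
    (hf : LocallyIntegrable f) (hfx : MemLp fx (ENNReal.ofReal p)) (hfy : MemLp fy (ENNReal.ofReal p))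
    (h1 : IsWD f fx 1) (h2 : IsWD f fy I) :
    ∃ G : ℕ → ℂ → ℂ, (∀ n, ContDiff ℝ 1 (G n)) ∧ (∀ n, HasCompactSupport (G n)) ∧
      (∀ n, MemLp (dz (G n)) (ENNReal.ofReal p)) ∧
      (∀ n, MemLp (db (G n)) (ENNReal.ofReal p)) ∧
      Tendsto (fun n => eLpNorm (fun z => dz (G n) z - (fx z - I * fy z) / 2) (ENNReal.ofReal p))
        atTop (𝓝 0) ∧
      Tendsto (fun n => eLpNorm (fun z => db (G n) z - (fx z + I * fy z) / 2) (ENNReal.ofReal p))
        atTop (𝓝 0) := by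
  have hp1 : (1 : ENNReal) ≤ ENNReal.ofReal p := by
    rw [← ENNReal.ofReal_one]; exact ENNReal.ofReal_le_ofReal hp
  have hlx : LocallyIntegrable fx := hfx.locallyIntegrable hp1
  have hly : LocallyIntegrable fy := hfy.locallyIntegrable hp1
  obtain ⟨ρ, hρ⟩ := exists_moll
  obtain ⟨X, hX⟩ : ∃ X : ℕ → ℂ → ℂ, X = fun n z => ∫ t, ((ρ n t : ℝ) : ℂ) * fx (z - t) := ⟨_, rfl⟩
  obtain ⟨Y, hY⟩ : ∃ Y : ℕ → ℂ → ℂ, Y = fun n z => ∫ t, ((ρ n t : ℝ) : ℂ) * fy (z - t) := ⟨_, rfl⟩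
  obtain ⟨Fm, hFm⟩ : ∃ Fm : ℕ → ℂ → ℂ, Fm = fun n z => ∫ t, ((ρ n t : ℝ) : ℂ) * f (z - t) :=
    ⟨_, rfl⟩
  have hFC : ∀ n, ContDiff ℝ 1 (Fm n) := fun n => by
    rw [hFm]; exact (moll_deriv hρ hf hlx hly h1 h2 n).1
  have hFx : ∀ n z, fderiv ℝ (Fm n) z 1 = X n z := fun n z => by
    rw [hFm, hX]; exact (moll_deriv hρ hf hlx hly h1 h2 n).2.1 z
  have hFy : ∀ n z, fderiv ℝ (Fm n) z I = Y n z := fun n z => by
    rw [hFm, hY]; exact (moll_deriv hρ hf hlx hly h1 h2 n).2.2 z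
  have hXL : ∀ n, MemLp (X n) (ENNReal.ofReal p) := fun n => by
    rw [hX]; exact (moll_Lp hρ hp hfx).1 n
  have hYL : ∀ n, MemLp (Y n) (ENNReal.ofReal p) := fun n => by
    rw [hY]; exact (moll_Lp hρ hp hfy).1 n
  have hXt : Tendsto (fun n => eLpNorm (fun z => X n z - fx z) (ENNReal.ofReal p)) atTop (𝓝 0) := by
    rw [hX]; exact (moll_Lp hρ hp hfx).2
  have hYt : Tendsto (fun n => eLpNorm (fun z => Y n z - fy z) (ENNReal.ofReal p)) atTop (𝓝 0) := by
    rw [hY]; exact (moll_Lp hρ hp hfy).2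
  -- the derivative is in `L^p`
  have hFL : ∀ n, MemLp (fun z => fderiv ℝ (Fm n) z) (ENNReal.ofReal p) := by
    intro n
    have hc : Continuous (fun z => fderiv ℝ (Fm n) z) := (hFC n).continuous_fderiv one_ne_zero
    refine MemLp.mono' (g := fun z => ‖X n z‖ + ‖Y n z‖) ((hXL n).norm.add (hYL n).norm)
      hc.aestronglyMeasurable (Eventually.of_forall fun z => ?_)
    rw [← hFx, ← hFy]
    exact opNormW _
  have hcut : ∀ n : ℕ, ∃ f' : ℂ → ℂ, ContDiff ℝ 1 f' ∧ HasCompactSupport f' ∧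
      eLpNorm (fun z => fderiv ℝ f' z - fderiv ℝ (Fm n) z)
        (ENNReal.ofReal p) ≤ ENNReal.ofReal (1 / ((n : ℝ) + 1)) := fun n =>
    cutoff_all hp (hFC n) (hFL n) (by positivity)
  choose G hG1 hG2 hG4 using hcut
  have hGc : ∀ n, Continuous (fun z => fderiv ℝ (G n) z) := fun n =>
    (hG1 n).continuous_fderiv one_ne_zero
  have hFc : ∀ n, Continuous (fun z => fderiv ℝ (Fm n) z) := fun n =>
    (hFC n).continuous_fderiv one_ne_zero
  have hGL : ∀ n, MemLp (fun z => fderiv ℝ (G n) z) (ENNReal.ofReal p) := by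
    intro n
    have h3 : MemLp (fun z => fderiv ℝ (G n) z - fderiv ℝ (Fm n) z) (ENNReal.ofReal p) :=
      ⟨((hGc n).sub (hFc n)).aestronglyMeasurable, (hG4 n).trans_lt ENNReal.ofReal_lt_top⟩
    have h4 := h3.add (hFL n)
    refine h4.congr_norm (hGc n).aestronglyMeasurable (Eventually.of_forall fun z => ?_)
    simp
  have hN1 : ∀ A : ℂ →L[ℝ] ℂ, ‖A 1‖ ≤ ‖A‖ := fun A => by
    have := A.le_opNorm 1
    rwa [norm_one, mul_one] at this
  have hNI : ∀ A : ℂ →L[ℝ] ℂ, ‖A I‖ ≤ ‖A‖ := fun A => by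
    have := A.le_opNorm I
    rwa [Complex.norm_I, mul_one] at this
  have hhalf : ∀ a b : ℂ, ‖(a - I * b) / 2‖ ≤ (‖a‖ + ‖b‖) / 2 := fun a b => by
    rw [norm_div, Complex.norm_ofNat]
    have := norm_sub_le a (I * b)
    rw [norm_mul, Complex.norm_I, one_mul] at this
    linarith
  have hhalf' : ∀ a b : ℂ, ‖(a + I * b) / 2‖ ≤ (‖a‖ + ‖b‖) / 2 := fun a b => by
    rw [norm_div, Complex.norm_ofNat]
    have := norm_add_le a (I * b)
    rw [norm_mul, Complex.norm_I, one_mul] at this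
    linarith
  have hdzL : ∀ n, MemLp (dz (G n)) (ENNReal.ofReal p) := by
    intro n
    refine (hGL n).mono (dz_continuous (hG1 n)).aestronglyMeasurable
      (Eventually.of_forall fun z => ?_)
    unfold dz
    have := hhalf (fderiv ℝ (G n) z 1) (fderiv ℝ (G n) z I)
    have := hN1 (fderiv ℝ (G n) z)
    have := hNI (fderiv ℝ (G n) z)
    linarith
  have hdbL : ∀ n, MemLp (db (G n)) (ENNReal.ofReal p) := by
    intro n
    refine (hGL n).mono (db_continuous (hG1 n)).aestronglyMeasurable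
      (Eventually.of_forall fun z => ?_)
    unfold db
    have := hhalf' (fderiv ℝ (G n) z 1) (fderiv ℝ (G n) z I)
    have := hN1 (fderiv ℝ (G n) z)
    have := hNI (fderiv ℝ (G n) z)
    linarith
  -- the error
  obtain ⟨E, hE⟩ : ∃ E : ℕ → ENNReal, E = fun n : ℕ =>
      ENNReal.ofReal (1 / ((n : ℝ) + 1)) + (eLpNorm (fun z => X n z - fx z) (ENNReal.ofReal p) +
        eLpNorm (fun z => Y n z - fy z) (ENNReal.ofReal p)) := ⟨_, rfl⟩
  have hE0 : Tendsto E atTop (𝓝 0) := by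
    have h3 : Tendsto (fun n : ℕ => ENNReal.ofReal (1 / ((n : ℝ) + 1))) atTop (𝓝 0) := by
      have h4 := ENNReal.tendsto_ofReal (tendsto_one_div_add_atTop_nhds_zero_nat (𝕜 := ℝ))
      rwa [ENNReal.ofReal_zero] at h4
    have h5 := h3.add (hXt.add hYt)
    rw [add_zero, add_zero] at h5
    rw [hE]
    exact h5
  have hbound : ∀ (n : ℕ) (Q : ℂ → ℂ), (∀ z, ‖Q z‖ ≤ ‖fderiv ℝ (G n) z - fderiv ℝ (Fm n) z‖ +
      (‖X n z - fx z‖ + ‖Y n z - fy z‖)) → eLpNorm Q (ENNReal.ofReal p) ≤ E n := by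
    intro n Q hQ
    have m1 : AEStronglyMeasurable (fun z => ‖fderiv ℝ (G n) z - fderiv ℝ (Fm n) z‖) volume :=
      ((hGc n).sub (hFc n)).norm.aestronglyMeasurable
    have m2 : AEStronglyMeasurable (fun z => ‖X n z - fx z‖) volume :=
      ((hXL n).1.sub hfx.1).norm
    have m3 : AEStronglyMeasurable (fun z => ‖Y n z - fy z‖) volume :=
      ((hYL n).1.sub hfy.1).norm
    refine (eLpNorm_mono_real hQ).trans ?_
    refine (eLpNorm_add_le m1 (m2.add m3) hp1).trans ?_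
    rw [hE]
    refine add_le_add ?_ ((eLpNorm_add_le m2 m3 hp1).trans ?_)
    · rw [eLpNorm_norm]; exact hG4 n
    · rw [eLpNorm_norm, eLpNorm_norm]
  refine ⟨G, hG1, hG2, hdzL, hdbL, ?_, ?_⟩
  · refine tendsto_of_tendsto_of_tendsto_of_le_of_le tendsto_const_nhds hE0 (fun _ => zero_le)
      fun n => hbound n _ fun z => ?_
    have e1 : dz (G n) z - (fx z - I * fy z) / 2 =
        (((fderiv ℝ (G n) z - fderiv ℝ (Fm n) z) 1) - I * ((fderiv ℝ (G n) z -
          fderiv ℝ (Fm n) z) I)) / 2 + ((X n z - fx z) - I * (Y n z - fy z)) / 2 := by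
      unfold dz
      rw [← hFx, ← hFy, _root_.sub_apply, _root_.sub_apply]
      ring
    rw [e1]
    have b1 := norm_add_le ((((fderiv ℝ (G n) z - fderiv ℝ (Fm n) z) 1) - I * ((fderiv ℝ (G n) z -
          fderiv ℝ (Fm n) z) I)) / 2) (((X n z - fx z) - I * (Y n z - fy z)) / 2)
    have b2 := hhalf ((fderiv ℝ (G n) z - fderiv ℝ (Fm n) z) 1) ((fderiv ℝ (G n) z -
      fderiv ℝ (Fm n) z) I)
    have b3 := hhalf (X n z - fx z) (Y n z - fy z)
    have b4 := hN1 (fderiv ℝ (G n) z - fderiv ℝ (Fm n) z)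
    have b5 := hNI (fderiv ℝ (G n) z - fderiv ℝ (Fm n) z)
    have b6 := norm_nonneg (X n z - fx z)
    have b7 := norm_nonneg (Y n z - fy z)
    linarith
  · refine tendsto_of_tendsto_of_tendsto_of_le_of_le tendsto_const_nhds hE0 (fun _ => zero_le)
      fun n => hbound n _ fun z => ?_
    have e1 : db (G n) z - (fx z + I * fy z) / 2 =
        (((fderiv ℝ (G n) z - fderiv ℝ (Fm n) z) 1) + I * ((fderiv ℝ (G n) z -
          fderiv ℝ (Fm n) z) I)) / 2 + ((X n z - fx z) + I * (Y n z - fy z)) / 2 := by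
      unfold db
      rw [← hFx, ← hFy, _root_.sub_apply, _root_.sub_apply]
      ring
    rw [e1]
    have b1 := norm_add_le ((((fderiv ℝ (G n) z - fderiv ℝ (Fm n) z) 1) + I * ((fderiv ℝ (G n) z -
          fderiv ℝ (Fm n) z) I)) / 2) (((X n z - fx z) + I * (Y n z - fy z)) / 2)
    have b2 := hhalf' ((fderiv ℝ (G n) z - fderiv ℝ (Fm n) z) 1) ((fderiv ℝ (G n) z -
      fderiv ℝ (Fm n) z) I)
    have b3 := hhalf' (X n z - fx z) (Y n z - fy z)
    have b4 := hN1 (fderiv ℝ (G n) z - fderiv ℝ (Fm n) z)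
    have b5 := hNI (fderiv ℝ (G n) z - fderiv ℝ (Fm n) z)
    have b6 := norm_nonneg (X n z - fx z)
    have b7 := norm_nonneg (Y n z - fy z)
    linarith

theorem memZW {p : ℝ} {fx fy : ℂ → ℂ} (hfx : MemLp fx (ENNReal.ofReal p))
    (hfy : MemLp fy (ENNReal.ofReal p)) :
    MemLp (fun z => (fx z - I * fy z) / 2) (ENNReal.ofReal p) ∧
      MemLp (fun z => (fx z + I * fy z) / 2) (ENNReal.ofReal p) := by
  constructor
  · refine ((hfx.sub (hfy.const_mul I)).const_mul (1 / 2)).congr_norm ?_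
      (Eventually.of_forall fun z => ?_)
    · exact (hfx.sub (hfy.const_mul I)).1.mul_const (1 / 2) |>.congr
        (Eventually.of_forall fun z => by simp only [Pi.sub_apply]; ring)
    · simp only [Pi.sub_apply]
      congr 1
      ring
  · refine ((hfx.add (hfy.const_mul I)).const_mul (1 / 2)).congr_norm ?_
      (Eventually.of_forall fun z => ?_)
    · exact (hfx.add (hfy.const_mul I)).1.mul_const (1 / 2) |>.congr
        (Eventually.of_forall fun z => by simp only [Pi.add_apply]; ring)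
    · simp only [Pi.add_apply]
      congr 1
      ring

theorem BF_integrable {p : ℝ} (hp : 1 < p) {Z W : ℂ → ℂ} (hZ : MemLp Z (ENNReal.ofReal p))
    (hW : MemLp W (ENNReal.ofReal p)) : Integrable (fun z => BF p (Z z) (W z)) := by
  obtain ⟨K, hK0, hK⟩ := w4_BF hp
  set P := ENNReal.ofReal p with hP
  have hp0 : 0 < p := by linarith
  have hP1 : 1 ≤ P := by rw [hP, ← ENNReal.ofReal_one]; exact ENNReal.ofReal_le_ofReal hp.le
  have hP0 : P ≠ 0 := (lt_of_lt_of_le one_pos hP1).ne'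
  have hPt : P ≠ ⊤ := ENNReal.ofReal_ne_top
  have hPr : P.toReal = p := ENNReal.toReal_ofReal hp0.le
  have h3 : MemLp (fun z => ‖Z z‖ + ‖W z‖) P := hZ.norm.add hW.norm
  have h4 := h3.integrable_norm_rpow hP0 hPt
  rw [hPr] at h4
  refine (h4.const_mul K).mono (w4_BF_meas hp hZ.1 hW.1) (Eventually.of_forall fun z => ?_)
  have h5 := hK (Z z) (W z) 0 0
  have h6 : BF p 0 0 = 0 := by
    unfold BF
    simp
  rw [h6, sub_zero, sub_zero, sub_zero, norm_zero, add_zero, add_zero] at h5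
  have h7 : 0 ≤ ‖Z z‖ + ‖W z‖ := by positivity
  have h8 : (‖Z z‖ + ‖W z‖) * (‖Z z‖ + ‖W z‖) ^ (p - 1) = (‖Z z‖ + ‖W z‖) ^ p := by
    rcases h7.eq_or_lt with h9 | h9
    · rw [← h9, zero_mul, Real.zero_rpow hp0.ne']
    · rw [Real.rpow_sub_one h9.ne']
      field_simp
  rw [h8] at h5
  rw [Real.norm_eq_abs, Real.norm_eq_abs, Real.norm_eq_abs, abs_of_nonneg h7]
  exact h5.trans (le_abs_self _)

theorem plane_W_all {p : ℝ} (hp : 1 < p) {f fx fy : ℂ → ℂ}
    (hf : LocallyIntegrable f) (hfx : MemLp fx (ENNReal.ofReal p)) (hfy : MemLp fy (ENNReal.ofReal p))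
    (h1 : IsWD f fx 1) (h2 : IsWD f fy I) :
    0 ≤ ∫ z, BF p ((fx z - I * fy z) / 2) ((fx z + I * fy z) / 2) := by
  obtain ⟨G, hG1, hG2, hG4, hG5, hG6, hG7⟩ := approxW hp.le hf hfx hfy h1 h2
  have hZ := memZW hfx hfy
  have hlim := BF_tendsto hp hZ.1 hZ.2 hG4 hG5 hG6 hG7
  exact ge_of_tendsto' hlim fun n => burk_all hp (hG1 n) (hG2 n)

end Pool.Agent.Helper7.SV
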