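import Pool.Agent.Helper7.SV.Defs

/-!
# SV-X1: functions on the plane supported in the open unit square, as functions on the torus

`rep x = x₁ + i x₂`, representatives in `(0,1]` (`AddCircle.equivIoc 1 0`).
* `int_rep`: `UnitAddTorus.integral_preimage` with `a = 0` : `∫_X F (rep x) = ∫_{(0,1]²} F (rep (↑y)) dy`, `rep ↑y = y 0 + i y 1` on
  `(0,1]²` (`AddCircle.equivIoc_coe_eq`); measure preserving `ℂ ≃ (Fin 2 → ℝ)`
  (`Complex.volume_preserving_equiv_pi`, `Complex.measurableEquivPi`) ; `F = 0` off the open square.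
-/

set_option autoImplicit false

noncomputable section

open scoped ComplexConjugate Topology
open MeasureTheory UnitAddTorus Filter

namespace Pool.Agent.Helper7.SV

/-- the representative in `(0,1]²` of a point of the torus, as a complex number -/
def rep (x : X) : ℂ := ((AddCircle.equivIoc 1 0 (x 0) : ℝ) : ℂ) +
  ((AddCircle.equivIoc 1 0 (x 1) : ℝ) : ℂ) * Complex.I

/-- the open unit square -/
def sq : Set ℂ := {z | 0 < z.re ∧ z.re < 1 ∧ 0 < z.im ∧ z.im < 1}

theorem rep_measurable : Measurable rep := by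
  have h : ∀ i : Fin 2, Measurable fun x : X => ((AddCircle.equivIoc 1 0 (x i) : ℝ) : ℂ) := by
    intro i
    have h1 : Measurable (fun y : UnitAddCircle => (AddCircle.equivIoc 1 0 y : ℝ)) :=
      measurable_subtype_coe.comp (AddCircle.measurableEquivIoc 1 0).measurable
    exact Complex.measurable_ofReal.comp (h1.comp (measurable_pi_apply i))
  exact (h 0).add ((h 1).mul_const _)

theorem int_rep {E : Type*} [NormedAddCommGroup E] [NormedSpace ℝ E] (F : ℂ → E)
    (h0 : ∀ z, z ∉ sq → F z = 0) : ∫ x : X, F (rep x) = ∫ z : ℂ, F z := by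
  rw [UnitAddTorus.integral_preimage (fun x : X => F (rep x)) (fun _ => 0)]
  have hm : MeasurableSet {x : Fin 2 → ℝ | ∀ i, x i ∈ Set.Ioc ((fun _ => 0 : Fin 2 → ℝ) i)
      ((fun _ => 0 : Fin 2 → ℝ) i + 1)} :=
    MeasurableSet.univ_pi' (fun i => measurableSet_Ioc)
  have e1 : ∫ (x : Fin 2 → ℝ) in {x : Fin 2 → ℝ | ∀ i, x i ∈ Set.Ioc ((fun _ => 0 : Fin 2 → ℝ) i)
      ((fun _ => 0 : Fin 2 → ℝ) i + 1)}, F (rep (fun i => (x i : UnitAddCircle))) =
      ∫ (x : Fin 2 → ℝ) in {x : Fin 2 → ℝ | ∀ i, x i ∈ Set.Ioc ((fun _ => 0 : Fin 2 → ℝ) i)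
      ((fun _ => 0 : Fin 2 → ℝ) i + 1)}, F (Complex.measurableEquivPi.symm x) := by
    refine setIntegral_congr_fun hm fun x hx => ?_
    have h1 : rep (fun i => (x i : UnitAddCircle)) = Complex.measurableEquivPi.symm x := by
      rw [Complex.measurableEquivPi_symm_apply]
      unfold rep
      rw [AddCircle.equivIoc_coe_of_mem (p := (1 : ℝ)) (a := 0) (hx 0),
        AddCircle.equivIoc_coe_of_mem (p := (1 : ℝ)) (a := 0) (hx 1)]
    change F (rep (fun i => (x i : UnitAddCircle))) = _
    rw [h1]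
  rw [e1, setIntegral_eq_integral_of_forall_compl_eq_zero]
  · exact Complex.volume_preserving_equiv_pi.symm.integral_comp' F
  · intro x hx
    apply h0
    intro hs
    apply hx
    rw [Complex.measurableEquivPi_symm_apply] at hs
    obtain ⟨h1, h2, h3, h4⟩ := hs
    simp at h1 h2 h3 h4
    intro i
    fin_cases i
    · exact ⟨h1, by simpa using h2.le⟩
    · exact ⟨h3, by simpa using h4.le⟩

/-- the character with frequency `k` on the plane -/
def chi (k : Ix) (z : ℂ) : ℂ :=
  Complex.exp (((2 * Real.pi * ((k 0 : ℝ) * z.re + (k 1 : ℝ) * z.im) : ℝ) : ℂ) * Complex.I)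

theorem mFourier_rep (k : Ix) (x : X) : mFourier k x = chi k (rep x) := by
  have h : ∀ i : Fin 2, fourier (k i) (x i) =
      Complex.exp (2 * Real.pi * Complex.I * (k i) * (AddCircle.equivIoc 1 0 (x i) : ℝ)) := by
    intro i
    conv_lhs => rw [← AddCircle.coe_equivIoc (p := (1 : ℝ)) (a := 0) (y := x i)]
    rw [fourier_coe_apply]
    congr 1
    simp
  have hre : (rep x).re = (AddCircle.equivIoc 1 0 (x 0) : ℝ) := by
    unfold rep; simp
  have him : (rep x).im = (AddCircle.equivIoc 1 0 (x 1) : ℝ) := by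
    unfold rep; simp
  unfold mFourier chi
  rw [ContinuousMap.coe_mk, Fin.prod_univ_two, h 0, h 1, ← Complex.exp_add, hre, him]
  congr 1
  push_cast
  ring

end Pool.Agent.Helper7.SV
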