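import Pool.Agent.Helper7.SV.X1

/-!
# SV-X2: integration by parts on the plane

`chi k` is smooth, `fderiv ℝ (chi k) z v = 2π i (k₀ v.re + k₁ v.im) chi k z`.  `∫ chi · fderiv f · v = -∫ (fderiv chi · v) f`
(`integral_mul_fderiv_eq_neg_fderiv_mul_of_integrable` or similar; `f` is C¹ with compact support).
With `dz f = (f_x - i f_y)/2`: `∫ chi(-k) dz f = π i conj (kap k) ∫ chi(-k) f`, `∫ chi(-k) db f = π i kap k ∫ chi(-k) f`.
-/

set_option autoImplicit false

noncomputable section

open scoped ComplexConjugate Topology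
open MeasureTheory UnitAddTorus Filter

namespace Pool.Agent.Helper7.SV

open Pool.Agent.Helper7.BU

private theorem h9_chi (k : Ix) (z : ℂ) : HasFDerivAt (chi k)
    (((chi k z) * (((2 * Real.pi : ℝ) : ℂ) * Complex.I)) •
      (((k 0 : ℝ) • (Complex.ofRealCLM.comp Complex.reCLM)) + ((k 1 : ℝ) • (Complex.ofRealCLM.comp Complex.imCLM)))) z := by
  have h1 : HasFDerivAt (fun w : ℂ => (k 0 : ℝ) * w.re + (k 1 : ℝ) * w.im)
      ((k 0 : ℝ) • Complex.reCLM + (k 1 : ℝ) • Complex.imCLM) z :=
    (Complex.reCLM.hasFDerivAt.const_mul (k 0 : ℝ)).add (Complex.imCLM.hasFDerivAt.const_mul (k 1 : ℝ))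
  have h2 : HasFDerivAt (fun w : ℂ => 2 * Real.pi * ((k 0 : ℝ) * w.re + (k 1 : ℝ) * w.im))
      ((2 * Real.pi) • ((k 0 : ℝ) • Complex.reCLM + (k 1 : ℝ) • Complex.imCLM)) z := h1.const_mul _
  have h3 := Complex.ofRealCLM.hasFDerivAt.comp z h2
  have h4 := (h3.mul_const Complex.I).cexp
  refine h4.congr_fderiv ?_
  ext v
  all_goals (simp [chi]; try ring)

private theorem h9_chi_apply (k : Ix) (z v : ℂ) : fderiv ℝ (chi k) z v =
    2 * Real.pi * Complex.I * (((k 0 : ℝ) * v.re + (k 1 : ℝ) * v.im : ℝ) : ℂ) * chi k z := by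
  rw [(h9_chi k z).fderiv]
  simp
  ring

private theorem h9_chi_cont (k : Ix) : Continuous (chi k) := by
  unfold chi
  fun_prop

private theorem h9_parts {f : ℂ → ℂ} (hf : ContDiff ℝ 1 f) (hs : HasCompactSupport f) (k : Ix) (v : ℂ) :
    ∫ z, chi (-k) z * fderiv ℝ f z v =
      2 * Real.pi * Complex.I * (((k 0 : ℝ) * v.re + (k 1 : ℝ) * v.im : ℝ) : ℂ) * ∫ z, chi (-k) z * f z := by
  have hcf : Continuous f := hf.continuous
  have hcd : Continuous (fun z => fderiv ℝ f z v) :=
    (hf.continuous_fderiv (by norm_num)).clm_apply continuous_const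
  have hsd : HasCompactSupport (fun z => fderiv ℝ f z v) := hs.fderiv_apply ℝ v
  have hc := h9_chi_cont (-k)
  have i1 : Integrable (fun z => chi (-k) z * f z) :=
    (hc.mul hcf).integrable_of_hasCompactSupport hs.mul_left
  have i2 : Integrable (fun z => chi (-k) z * fderiv ℝ f z v) :=
    (hc.mul hcd).integrable_of_hasCompactSupport hsd.mul_left
  have e1 : (fun z => fderiv ℝ (chi (-k)) z v * f z) = fun z =>
      (2 * Real.pi * Complex.I * ((((-k) 0 : ℤ) * v.re + ((-k) 1 : ℤ) * v.im : ℝ) : ℂ)) * (chi (-k) z * f z) := by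
    funext z
    rw [h9_chi_apply]
    ring
  have i3 : Integrable (fun z => fderiv ℝ (chi (-k)) z v * f z) := by
    rw [e1]
    exact i1.const_mul _
  have h := integral_mul_fderiv_eq_neg_fderiv_mul_of_integrable i3 i2 i1
    (fun z _ => (h9_chi (-k) z).differentiableAt) (fun z _ => hf.differentiable (by norm_num) z)
  rw [h, e1, integral_const_mul, ← neg_mul]
  congr 1
  push_cast
  simp only [Pi.neg_apply, Int.cast_neg]
  ring

private theorem h9_int {f : ℂ → ℂ} (hf : ContDiff ℝ 1 f) (hs : HasCompactSupport f) (k : Ix) (v : ℂ) :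
    Integrable (fun z => chi (-k) z * fderiv ℝ f z v) := by
  have hcd : Continuous (fun z => fderiv ℝ f z v) :=
    (hf.continuous_fderiv (by norm_num)).clm_apply continuous_const
  have hsd : HasCompactSupport (fun z => fderiv ℝ f z v) := hs.fderiv_apply ℝ v
  exact ((h9_chi_cont (-k)).mul hcd).integrable_of_hasCompactSupport hsd.mul_left

theorem int_dz {f : ℂ → ℂ} (hf : ContDiff ℝ 1 f) (hs : HasCompactSupport f) (k : Ix) :
    ∫ z, chi (-k) z * dz f z = Real.pi * Complex.I * conj (kap k) * ∫ z, chi (-k) z * f z := by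
  have h1 := h9_parts hf hs k 1
  have h2 := h9_parts hf hs k Complex.I
  have e : (fun z => chi (-k) z * dz f z) = fun z => (1 / 2 : ℂ) * (chi (-k) z * fderiv ℝ f z 1) -
      (Complex.I / 2) * (chi (-k) z * fderiv ℝ f z Complex.I) := by
    funext z
    unfold dz
    ring
  rw [e, integral_sub ((h9_int hf hs k 1).const_mul _) ((h9_int hf hs k Complex.I).const_mul _),
    integral_const_mul, integral_const_mul, h1, h2]
  unfold kap
  simp
  ring

theorem int_db {f : ℂ → ℂ} (hf : ContDiff ℝ 1 f) (hs : HasCompactSupport f) (k : Ix) :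
    ∫ z, chi (-k) z * db f z = Real.pi * Complex.I * kap k * ∫ z, chi (-k) z * f z := by
  have h1 := h9_parts hf hs k 1
  have h2 := h9_parts hf hs k Complex.I
  have e : (fun z => chi (-k) z * db f z) = fun z => (1 / 2 : ℂ) * (chi (-k) z * fderiv ℝ f z 1) +
      (Complex.I / 2) * (chi (-k) z * fderiv ℝ f z Complex.I) := by
    funext z
    unfold db
    ring
  rw [e, integral_add ((h9_int hf hs k 1).const_mul _) ((h9_int hf hs k Complex.I).const_mul _),
    integral_const_mul, integral_const_mul, h1, h2]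
  unfold kap
  simp
  ring

end Pool.Agent.Helper7.SV
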