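import Pool.Agent.Helper7.SV.X2
import Pool.Agent.Helper7.SV.C
import Pool.Agent.Helper7.BU.Burk

/-!
# SV-X3: the inequality in the plane for all C¹ maps with compact support

`sv_unit`: `a = dz f ∘ rep`, `b = db f ∘ rep` are bounded measurable, so `MemLp _ 2`; `fc (toLp a) k = ∫ chi (-k) dz f` by
`mFourier_rep`, `int_rep` (the integrand vanishes off `sq`), `int_dz`, `int_db`; `core`; `int_rep` for `LS (dz f) (db f)`.
`sv_all`: `f` has support in a ball of radius `M`; `g z = r⁻¹ f (r z - c)` with `r = 4M`, `c = 2M(1+i)` has support in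
the open unit square, `dz g z = dz f (r z - c)`, and `∫ LS (dz g) (db g) = r⁻² ∫ LS (dz f) (db f)`
(`Measure.integral_comp_smul`/`integral_comp_mul..`, `integral_sub_right_eq_self`).
-/

set_option autoImplicit false

noncomputable section

open scoped ComplexConjugate Topology
open MeasureTheory UnitAddTorus Filter

namespace Pool.Agent.Helper7.SV

open Pool.Agent.Helper7.BU

/-- a continuous function on the plane with compact support, restricted to the torus, is in `L²` -/
private theorem memLp_rep {u : ℂ → ℂ} (hu : Continuous u) {C : ℝ} (hC : ∀ z, ‖u z‖ ≤ C) :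
    MemLp (fun x : X => u (rep x)) 2 volume :=
  MemLp.of_bound (hu.measurable.comp rep_measurable).aestronglyMeasurable C
    (Eventually.of_forall fun _ => hC _)

private theorem fc_rep {u : ℂ → ℂ} (hu : MemLp (fun x : X => u (rep x)) 2 volume)
    (h0 : ∀ z, z ∉ sq → u z = 0) (k : Ix) :
    fc (hu.toLp (fun x : X => u (rep x))) k = ∫ z, chi (-k) z * u z := by
  unfold fc mFourierCoeff
  have h1 : ∫ x : X, mFourier (-k) x • (hu.toLp (fun x : X => u (rep x)) : X → ℂ) x =
      ∫ x : X, chi (-k) (rep x) * u (rep x) := by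
    refine integral_congr_ae ?_
    filter_upwards [hu.coeFn_toLp] with x hx
    rw [hx, mFourier_rep, smul_eq_mul]
  rw [h1]
  exact int_rep (fun z => chi (-k) z * u z) fun z hz => by
    change chi (-k) z * u z = 0
    rw [h0 z hz, mul_zero]

theorem sv_unit {f : ℂ → ℂ} (hf : ContDiff ℝ 1 f) (hs : HasCompactSupport f)
    (hsq : tsupport f ⊆ sq) : Sv f := by
  obtain ⟨S, hS0, hS⟩ := exists_S hf hs
  have hz0 : ∀ z, z ∉ sq → dz f z = 0 ∧ db f z = 0 := by
    intro z hz
    have h2 : f =ᶠ[𝓝 z] 0 := notMem_tsupport_iff_eventuallyEq.1 fun h => hz (hsq h)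
    apply dz_zero_of
    rw [h2.fderiv_eq]
    simp
  have ha := memLp_rep (dz_continuous hf) (C := S) fun z =>
    (le_add_of_nonneg_right (norm_nonneg _)).trans (hS z)
  have hb := memLp_rep (db_continuous hf) (C := S) fun z =>
    (le_add_of_nonneg_left (norm_nonneg _)).trans (hS z)
  have hfa := fc_rep ha fun z hz => (hz0 z hz).1
  have hfb := fc_rep hb fun z hz => (hz0 z hz).2
  simp only [int_dz hf hs] at hfa
  simp only [int_db hf hs] at hfb
  have hk0 : kap 0 = 0 := by unfold kap; simp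
  have h1 := core (a := ha.toLp _) (b := hb.toLp _) (by rw [hfa, hk0]; simp)
    (by rw [hfb, hk0]; simp) (fun k => by rw [hfa, hfb]; ring)
  have h2 : ∫ x : X, LS ((ha.toLp (fun x : X => dz f (rep x)) : X → ℂ) x)
      ((hb.toLp (fun x : X => db f (rep x)) : X → ℂ) x) =
      ∫ x : X, LS (dz f (rep x)) (db f (rep x)) := by
    refine integral_congr_ae ?_
    filter_upwards [ha.coeFn_toLp, hb.coeFn_toLp] with x hx hx'
    rw [hx, hx']
  rw [h2] at h1
  have h3 := int_rep (fun z => LS (dz f z) (db f z)) fun z hz => by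
    change LS (dz f z) (db f z) = 0
    rw [(hz0 z hz).1, (hz0 z hz).2, LS_zero]
  rw [h3] at h1
  exact h1

/-- Šverák's inequality for all C¹ maps with compact support. -/
theorem sv_all {f : ℂ → ℂ} (hf : ContDiff ℝ 1 f) (hs : HasCompactSupport f) : Sv f := by
  obtain ⟨M, hM, hz⟩ := exists_radius hs
  obtain ⟨r, hr⟩ : ∃ r : ℝ, r = 4 * M := ⟨_, rfl⟩
  have hr0 : 0 < r := by rw [hr]; positivity
  obtain ⟨c, hc⟩ : ∃ c : ℂ, c = ⟨2 * M, 2 * M⟩ := ⟨_, rfl⟩
  obtain ⟨g, hg⟩ : ∃ g : ℂ → ℂ, g = fun z => ((r⁻¹ : ℝ) : ℂ) * f (r • z - c) := ⟨_, rfl⟩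
  have hin : ContDiff ℝ 1 (fun z : ℂ => r • z - c) := (contDiff_id.const_smul r).sub contDiff_const
  have hgC : ContDiff ℝ 1 g := by
    rw [hg]
    exact contDiff_const.mul (hf.comp hin)
  have hg0 : ∀ z, g z ≠ 0 → z ∈ Set.Icc (1 / 4 : ℝ) (3 / 4) ×ℂ Set.Icc (1 / 4 : ℝ) (3 / 4) := by
    intro z hne
    have h1 : ‖r • z - c‖ < M := by
      by_contra hcon
      apply hne
      rw [hg]
      change ((r⁻¹ : ℝ) : ℂ) * f (r • z - c) = 0
      rw [(hz _ (not_lt.1 hcon)).1, mul_zero]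
    have h2 := (Complex.abs_re_le_norm (r • z - c)).trans h1.le
    have h3 := (Complex.abs_im_le_norm (r • z - c)).trans h1.le
    rw [abs_le] at h2 h3
    rw [hc, hr] at h2 h3
    simp only [Complex.sub_re, Complex.sub_im, Complex.smul_re, Complex.smul_im, smul_eq_mul]
      at h2 h3
    rw [Complex.mem_reProdIm]
    refine ⟨⟨?_, ?_⟩, ⟨?_, ?_⟩⟩ <;> nlinarith
  have hcomp : IsCompact (Set.Icc (1 / 4 : ℝ) (3 / 4) ×ℂ Set.Icc (1 / 4 : ℝ) (3 / 4)) :=
    isCompact_Icc.reProdIm isCompact_Icc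
  have hgs : HasCompactSupport g := HasCompactSupport.intro hcomp fun z hz => by
    by_contra hcon
    exact hz (hg0 z hcon)
  have hgt : tsupport g ⊆ sq := by
    refine (closure_minimal (fun z hz => hg0 z hz) hcomp.isClosed).trans fun z hz => ?_
    rw [Complex.mem_reProdIm] at hz
    obtain ⟨⟨h1, h2⟩, ⟨h3, h4⟩⟩ := hz
    exact ⟨by linarith, by linarith, by linarith, by linarith⟩
  have hgf : ∀ z v, fderiv ℝ g z v = fderiv ℝ f (r • z - c) v := by
    intro z v
    have h1 : HasFDerivAt f (fderiv ℝ f (r • z - c)) (r • z - c) :=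
      (hf.differentiable one_ne_zero _).hasFDerivAt
    have h2 : HasFDerivAt (fun z : ℂ => r • z - c) (r • ContinuousLinearMap.id ℝ ℂ) z :=
      ((hasFDerivAt_id z).const_smul r).sub_const c
    have h3 := (h1.comp z h2).const_mul ((r⁻¹ : ℝ) : ℂ)
    have h4 : HasFDerivAt g (((r⁻¹ : ℝ) : ℂ) • (fderiv ℝ f (r • z - c)).comp
        (r • ContinuousLinearMap.id ℝ ℂ)) z := by
      rw [hg]; exact h3
    rw [h4.fderiv]
    change ((r⁻¹ : ℝ) : ℂ) * fderiv ℝ f (r • z - c) (r • v) = _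
    rw [map_smul, Complex.real_smul, ← mul_assoc, ← Complex.ofReal_mul,
      inv_mul_cancel₀ hr0.ne', Complex.ofReal_one, one_mul]
  have hdz : ∀ z, dz g z = dz f (r • z - c) := fun z => by unfold dz; rw [hgf, hgf]
  have hdb : ∀ z, db g z = db f (r • z - c) := fun z => by unfold db; rw [hgf, hgf]
  have h1 := sv_unit hgC hgs hgt
  unfold Sv at h1 ⊢
  simp only [hdz, hdb] at h1
  obtain ⟨G, hG⟩ : ∃ G : ℂ → ℝ, G = fun z => LS (dz f z) (db f z) := ⟨_, rfl⟩
  have h2 : ∫ z, LS (dz f (r • z - c)) (db f (r • z - c)) = ∫ z : ℂ, (fun y => G (y - c)) (r • z) := by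
    rw [hG]
  rw [h2, Measure.integral_comp_smul volume (fun y => G (y - c)) r,
    integral_sub_right_eq_self G c, smul_eq_mul] at h1
  have h3 : 0 < |(r ^ Module.finrank ℝ ℂ)⁻¹| := abs_pos.2 (inv_ne_zero (pow_ne_zero _ hr0.ne'))
  have h4 := nonneg_of_mul_nonneg_right h1 h3
  rw [hG] at h4
  exact h4

end Pool.Agent.Helper7.SV
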