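import Pool.Agent.Helper7.SV.X1

/-!
# SV-Y1: the torus and the unit square of `ℝ × ℝ`
-/

set_option autoImplicit false

noncomputable section

open scoped ComplexConjugate Topology
open MeasureTheory UnitAddTorus Filter

namespace Pool.Agent.Helper7.SV

/-- the closed unit square -/
def QQ : Set (ℝ × ℝ) := Set.Icc 0 1 ×ˢ Set.Icc 0 1

theorem sq_measurable : MeasurableSet sq := by
  have : IsOpen sq := by
    have h1 : IsOpen {z : ℂ | 0 < z.re} := isOpen_lt continuous_const Complex.continuous_re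
    have h2 : IsOpen {z : ℂ | z.re < 1} := isOpen_lt Complex.continuous_re continuous_const
    have h3 : IsOpen {z : ℂ | 0 < z.im} := isOpen_lt continuous_const Complex.continuous_im
    have h4 : IsOpen {z : ℂ | z.im < 1} := isOpen_lt Complex.continuous_im continuous_const
    exact h1.inter (h2.inter (h3.inter h4))
  exact this.measurableSet

theorem sq_eq : sq = Complex.measurableEquivRealProd ⁻¹' (Set.Ioo (0 : ℝ) 1 ×ˢ Set.Ioo (0 : ℝ) 1) := by
  ext z
  simp only [sq, Set.mem_ofPred_eq, Set.mem_preimage, Complex.measurableEquivRealProd_apply,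
    Set.mem_prod, Set.mem_Ioo]
  tauto

theorem vol_sq : volume sq = 1 := by
  rw [sq_eq, Complex.volume_preserving_equiv_real_prod.measure_preimage
    (measurableSet_Ioo.prod measurableSet_Ioo).nullMeasurableSet, Measure.volume_eq_prod,
    Measure.prod_prod]
  simp

theorem rep_mp : MeasurePreserving rep (volume : Measure X) (volume.restrict sq) := by
  refine ⟨rep_measurable, ?_⟩
  have h1 : ∀ S : Set ℂ, MeasurableSet S → S ⊆ sq →
      (volume : Measure X) (rep ⁻¹' S) = volume S := by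
    intro S hS hsub
    have h := int_rep (S.indicator (fun _ => (1 : ℝ))) (fun z hz => by
      rw [Set.indicator_of_notMem]
      exact fun h => hz (hsub h))
    have e1 : (fun x : X => S.indicator (fun _ => (1 : ℝ)) (rep x)) =
        (rep ⁻¹' S).indicator (fun _ => (1 : ℝ)) := by
      ext x
      by_cases hx : rep x ∈ S
      · rw [Set.indicator_of_mem hx, Set.indicator_of_mem (Set.mem_preimage.2 hx)]
      · have hx' : x ∉ rep ⁻¹' S := hx
        rw [Set.indicator_of_notMem hx, Set.indicator_of_notMem hx']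
    rw [e1, integral_indicator_const _ (rep_measurable hS), integral_indicator_const _ hS,
      smul_eq_mul, smul_eq_mul, mul_one, mul_one] at h
    have h2 : volume S ≠ ⊤ := by
      refine ne_top_of_le_ne_top ?_ (measure_mono hsub)
      rw [vol_sq]; exact ENNReal.one_ne_top
    exact (ENNReal.toReal_eq_toReal_iff' (measure_ne_top _ _) h2).1 h
  have h2 : (volume : Measure X) (rep ⁻¹' sqᶜ) = 0 := by
    rw [Set.preimage_compl, prob_compl_eq_zero_iff (rep_measurable sq_measurable),
      h1 sq sq_measurable subset_rfl, vol_sq]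
  ext S hS
  rw [Measure.map_apply rep_measurable hS, Measure.restrict_apply hS,
    ← h1 (S ∩ sq) (hS.inter sq_measurable) Set.inter_subset_right]
  rw [Set.preimage_inter]
  refine (measure_inter_conull ?_).symm
  rw [← Set.preimage_compl]
  exact h2

theorem vol_QQ : (volume.restrict QQ : Measure (ℝ × ℝ)) =
    volume.restrict (Set.Ioo (0 : ℝ) 1 ×ˢ Set.Ioo (0 : ℝ) 1) := by
  refine Measure.restrict_congr_set ?_
  unfold QQ
  rw [Measure.volume_eq_prod]
  exact Measure.set_prod_ae_eq Ioo_ae_eq_Icc.symm Ioo_ae_eq_Icc.symm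

/-- coordinates in the unit square of a point of the torus -/
def psi (x : X) : ℝ × ℝ := Complex.measurableEquivRealProd (rep x)

theorem psi_mp : MeasurePreserving psi (volume : Measure X) (volume.restrict QQ) := by
  rw [vol_QQ]
  have h1 : MeasurePreserving Complex.measurableEquivRealProd (volume.restrict sq)
      (volume.restrict (Set.Ioo (0 : ℝ) 1 ×ˢ Set.Ioo (0 : ℝ) 1)) := by
    rw [sq_eq]
    exact Complex.volume_preserving_equiv_real_prod.restrict_preimage
      (measurableSet_Ioo.prod measurableSet_Ioo)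
  exact h1.comp rep_mp

theorem int_psi {E : Type*} [NormedAddCommGroup E] [NormedSpace ℝ E] {G : ℝ × ℝ → E}
    (hG : AEStronglyMeasurable G (volume.restrict QQ)) :
    ∫ x : X, G (psi x) = ∫ p in QQ, G p := by
  rw [← psi_mp.map_eq] at hG
  have := integral_map psi_mp.measurable.aemeasurable hG
  rw [psi_mp.map_eq] at this
  exact this.symm

/-- the character with frequency `k` on `ℝ × ℝ` -/
def chr (k : Ix) (p : ℝ × ℝ) : ℂ :=
  Complex.exp (((2 * Real.pi * ((k 0 : ℝ) * p.1 + (k 1 : ℝ) * p.2) : ℝ) : ℂ) * Complex.I)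

theorem mFourier_psi (k : Ix) (x : X) : mFourier k x = chr k (psi x) := by
  rw [mFourier_rep]; rfl

theorem chr_smooth (k : Ix) : ContDiff ℝ (⊤ : ℕ∞) (chr k) := by
  unfold chr
  have h : ContDiff ℝ (⊤ : ℕ∞) (fun p : ℝ × ℝ =>
      (2 * Real.pi * ((k 0 : ℝ) * p.1 + (k 1 : ℝ) * p.2) : ℝ)) := by fun_prop
  exact ((Complex.ofRealCLM.contDiff.comp h).mul contDiff_const).cexp

theorem chr_per1 (k : Ix) (x y : ℝ) : chr k (x + 1, y) = chr k (x, y) := by
  unfold chr
  have : (((2 * Real.pi * ((k 0 : ℝ) * (x + 1) + (k 1 : ℝ) * y) : ℝ) : ℂ) * Complex.I) =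
      (((2 * Real.pi * ((k 0 : ℝ) * x + (k 1 : ℝ) * y) : ℝ) : ℂ) * Complex.I) +
        (k 0 : ℂ) * (2 * Real.pi * Complex.I) := by
    push_cast; ring
  simp only
  rw [this, Complex.exp_periodic.int_mul]

theorem chr_per2 (k : Ix) (x y : ℝ) : chr k (x, y + 1) = chr k (x, y) := by
  unfold chr
  have : (((2 * Real.pi * ((k 0 : ℝ) * x + (k 1 : ℝ) * (y + 1)) : ℝ) : ℂ) * Complex.I) =
      (((2 * Real.pi * ((k 0 : ℝ) * x + (k 1 : ℝ) * y) : ℝ) : ℂ) * Complex.I) +
        (k 1 : ℂ) * (2 * Real.pi * Complex.I) := by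
    push_cast; ring
  simp only
  rw [this, Complex.exp_periodic.int_mul]

theorem chr_fderiv (k : Ix) (p v : ℝ × ℝ) : fderiv ℝ (chr k) p v =
    2 * Real.pi * Complex.I * ((k 0 : ℂ) * v.1 + (k 1 : ℂ) * v.2) * chr k p := by
  have h1 : HasFDerivAt (fun p : ℝ × ℝ => (k 0 : ℝ) * p.1 + (k 1 : ℝ) * p.2)
      ((k 0 : ℝ) • ContinuousLinearMap.fst ℝ ℝ ℝ + (k 1 : ℝ) • ContinuousLinearMap.snd ℝ ℝ ℝ) p :=
    (hasFDerivAt_fst.const_mul _).add (hasFDerivAt_snd.const_mul _)
  have h2 := (h1.const_mul (2 * Real.pi))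
  have h3 := (Complex.ofRealCLM.hasFDerivAt.comp p h2).mul_const Complex.I
  have h4 := h3.cexp
  have h5 : HasFDerivAt (chr k) _ p := h4
  rw [h5.fderiv]
  simp [chr]
  ring

end Pool.Agent.Helper7.SV
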