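import Pool.Agent.Helper7.SV.Y1
import Pool.Agent.Helper7.SV.C

/-!
# SV-Y2: the inequality on the unit square, `W^{1,2}` of the torus
-/

set_option autoImplicit false

noncomputable section

open scoped ComplexConjugate Topology
open MeasureTheory UnitAddTorus Filter

namespace Pool.Agent.Helper7.SV

open Pool.Agent.Helper7.BU

theorem fc_toLp {g : ℝ × ℝ → ℂ} (hg : MemLp g 2 (volume.restrict QQ)) (k : Ix) :
    fc ((hg.comp_measurePreserving psi_mp).toLp (g ∘ psi)) k = ∫ p in QQ, chr (-k) p * g p := by
  unfold fc mFourierCoeff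
  have h1 : ∫ x : X, mFourier (-k) x • ((hg.comp_measurePreserving psi_mp).toLp (g ∘ psi)) x =
      ∫ x : X, (fun p => chr (-k) p * g p) (psi x) := by
    refine integral_congr_ae ?_
    filter_upwards [(hg.comp_measurePreserving psi_mp).coeFn_toLp] with x hx
    rw [hx, mFourier_psi, smul_eq_mul]
    rfl
  rw [h1, int_psi (G := fun p => chr (-k) p * g p)]
  exact ((chr_smooth (-k)).continuous.aestronglyMeasurable).mul hg.1

theorem torus_W12 {f fx fy : ℝ × ℝ → ℂ} (hfx : MemLp fx 2 (volume.restrict QQ))
    (hfy : MemLp fy 2 (volume.restrict QQ))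
    (h1 : ∀ k : Ix, ∫ p in QQ, f p * fderiv ℝ (chr k) p (1, 0) = -∫ p in QQ, fx p * chr k p)
    (h2 : ∀ k : Ix, ∫ p in QQ, f p * fderiv ℝ (chr k) p (0, 1) = -∫ p in QQ, fy p * chr k p) :
    IntegrableOn (fun p => LS ((fx p - Complex.I * fy p) / 2) ((fx p + Complex.I * fy p) / 2)) QQ ∧
      0 ≤ ∫ p in QQ, LS ((fx p - Complex.I * fy p) / 2) ((fx p + Complex.I * fy p) / 2) := by
  have ha : MemLp (fun p => (fx p - Complex.I * fy p) / 2) 2 (volume.restrict QQ) := by
    have := (hfx.sub (hfy.const_mul Complex.I)).const_mul (1 / 2)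
    refine this.ae_eq (Eventually.of_forall fun p => ?_)
    simp only [Pi.sub_apply]; ring
  have hb : MemLp (fun p => (fx p + Complex.I * fy p) / 2) 2 (volume.restrict QQ) := by
    have := (hfx.add (hfy.const_mul Complex.I)).const_mul (1 / 2)
    refine this.ae_eq (Eventually.of_forall fun p => ?_)
    simp only [Pi.add_apply]; ring
  set a : ℝ × ℝ → ℂ := fun p => (fx p - Complex.I * fy p) / 2 with ha0
  set b : ℝ × ℝ → ℂ := fun p => (fx p + Complex.I * fy p) / 2 with hb0
  set a' : H := (ha.comp_measurePreserving psi_mp).toLp (a ∘ psi) with ha'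
  set b' : H := (hb.comp_measurePreserving psi_mp).toLp (b ∘ psi) with hb'
  -- integrability of the products with characters
  have hfin : IsFiniteMeasure (volume.restrict QQ : Measure (ℝ × ℝ)) := by
    rw [← psi_mp.map_eq]; infer_instance
  have hint : ∀ {g : ℝ × ℝ → ℂ}, MemLp g 2 (volume.restrict QQ) → ∀ k : Ix,
      Integrable (fun p => chr k p * g p) (volume.restrict QQ) := by
    intro g hg k
    have hgi : Integrable g (volume.restrict QQ) := hg.integrable (by norm_num)
    refine hgi.bdd_mul (c := 1) (chr_smooth k).continuous.aestronglyMeasurable ?_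
    refine Eventually.of_forall fun p => ?_
    unfold chr
    rw [Complex.norm_exp_ofReal_mul_I]
  -- Fourier coefficients
  set F : Ix → ℂ := fun k => ∫ p in QQ, chr (-k) p * f p with hF
  have cx : ∀ k : Ix, ∫ p in QQ, chr (-k) p * fx p = 2 * Real.pi * Complex.I * (k 0 : ℂ) * F k := by
    intro k
    have e := h1 (-k)
    have e1 : ∀ p, f p * fderiv ℝ (chr (-k)) p (1, 0) =
        -(2 * Real.pi * Complex.I * (k 0 : ℂ)) * (chr (-k) p * f p) := by
      intro p
      rw [chr_fderiv]
      simp
      ring
    simp_rw [e1] at e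
    rw [integral_const_mul] at e
    have e2 : ∫ p in QQ, fx p * chr (-k) p = ∫ p in QQ, chr (-k) p * fx p := by
      congr 1; ext p; ring
    rw [e2] at e
    linear_combination e
  have cy : ∀ k : Ix, ∫ p in QQ, chr (-k) p * fy p = 2 * Real.pi * Complex.I * (k 1 : ℂ) * F k := by
    intro k
    have e := h2 (-k)
    have e1 : ∀ p, f p * fderiv ℝ (chr (-k)) p (0, 1) =
        -(2 * Real.pi * Complex.I * (k 1 : ℂ)) * (chr (-k) p * f p) := by
      intro p
      rw [chr_fderiv]
      simp
      ring
    simp_rw [e1] at e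
    rw [integral_const_mul] at e
    have e2 : ∫ p in QQ, fy p * chr (-k) p = ∫ p in QQ, chr (-k) p * fy p := by
      congr 1; ext p; ring
    rw [e2] at e
    linear_combination e
  have ca : ∀ k, fc a' k = Real.pi * Complex.I * conj (kap k) * F k := by
    intro k
    rw [ha', fc_toLp ha]
    have e1 : ∀ p, chr (-k) p * a p = (1 / 2) * (chr (-k) p * fx p) -
        (Complex.I / 2) * (chr (-k) p * fy p) := by
      intro p
      rw [ha0]; ring
    simp_rw [e1]
    rw [integral_sub ((hint hfx _).const_mul _) ((hint hfy _).const_mul _), integral_const_mul,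
      integral_const_mul, cx, cy]
    unfold kap
    simp only [map_add, map_mul, Complex.conj_I, map_intCast]
    ring
  have cb : ∀ k, fc b' k = Real.pi * Complex.I * kap k * F k := by
    intro k
    rw [hb', fc_toLp hb]
    have e1 : ∀ p, chr (-k) p * b p = (1 / 2) * (chr (-k) p * fx p) +
        (Complex.I / 2) * (chr (-k) p * fy p) := by
      intro p
      rw [hb0]; ring
    simp_rw [e1]
    rw [integral_add ((hint hfx _).const_mul _) ((hint hfy _).const_mul _), integral_const_mul,
      integral_const_mul, cx, cy]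
    unfold kap
    ring
  have hk0 : kap 0 = 0 := by unfold kap; simp
  have hcore := core (a := a') (b := b') (by rw [ca, hk0]; simp) (by rw [cb, hk0]; simp)
    (fun k => by rw [ca, cb]; ring)
  have hLm : AEStronglyMeasurable (fun p => LS (a p) (b p)) (volume.restrict QQ) :=
    LS_continuous.comp_aestronglyMeasurable (ha.1.prodMk hb.1)
  constructor
  · have hi : Integrable (fun p => 6 * (‖a p‖ ^ 2 + ‖b p‖ ^ 2)) (volume.restrict QQ) := by
      have i1 := ha.integrable_norm_pow (by norm_num)
      have i2 := hb.integrable_norm_pow (by norm_num)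
      exact ((by simpa using i1 : Integrable (fun p => ‖a p‖ ^ 2) (volume.restrict QQ)).add
        (by simpa using i2 : Integrable (fun p => ‖b p‖ ^ 2) (volume.restrict QQ))).const_mul 6
    refine hi.mono' hLm (Eventually.of_forall fun p => ?_)
    rw [Real.norm_eq_abs]
    exact LS_abs_le _ _
  · rw [← int_psi hLm]
    refine hcore.trans_eq (integral_congr_ae ?_)
    filter_upwards [(ha.comp_measurePreserving psi_mp).coeFn_toLp,
      (hb.comp_measurePreserving psi_mp).coeFn_toLp] with x hx hy
    rw [ha', hb', hx, hy]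
    rfl

end Pool.Agent.Helper7.SV
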